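import Pool.Agent.H23.EL.Red

/-!
# Automorphisms of the ring of the algebraic integers
-/

set_option autoImplicit false

open Finset Polynomial

namespace Pool.Agent.H23.EL

/-- conjugate algebraic integers -/
theorem exists_aut {x y : AI} (h : aeval (y : ℂ) (minpoly ℚ (x : ℂ)) = 0) :
    ∃ τ : AI →+* AI, τ x = y := by
  have mem : ∀ a : AI, (a : ℂ) ∈ algebraicClosure ℚ ℂ := by
    intro a
    have h1 : IsIntegral ℤ (a : ℂ) := a.2
    exact mem_algebraicClosure_iff'.2 h1.tower_top
  set K := algebraicClosure ℚ ℂ with hK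
  have hcl : IsAlgClosure ℚ K := algebraicClosure.isAlgClosure ℚ ℂ
  have hN : Normal ℚ K := IsAlgClosure.normal ℚ K
  have h1 : aeval (⟨y, mem y⟩ : K) (minpoly ℚ (⟨x, mem x⟩ : K)) = 0 := by
    have h2 : minpoly ℚ (⟨x, mem x⟩ : K) = minpoly ℚ (x : ℂ) :=
      (minpoly.algebraMap_eq (algebraMap K ℂ).injective (⟨x, mem x⟩ : K)).symm
    rw [h2]
    apply (algebraMap K ℂ).injective
    rw [← aeval_algebraMap_apply, map_zero]
    exact h
  obtain ⟨σ, hσ⟩ := minpoly.exists_algEquiv_of_root' (K := ℚ) (L := K)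
    (Algebra.IsAlgebraic.isAlgebraic (⟨x, mem x⟩ : K)) h1
  have hint : ∀ a : AI, ((σ ⟨a, mem a⟩ : K) : ℂ) ∈ AI := by
    intro a
    have h2 : IsIntegral ℤ (a : ℂ) := a.2
    have h3 : IsIntegral ℤ (⟨a, mem a⟩ : K) := by
      have h4 : IsIntegral ℤ (algebraMap K ℂ (⟨a, mem a⟩ : K)) := h2
      exact (isIntegral_algebraMap_iff (algebraMap K ℂ).injective).1 h4
    have h5 : IsIntegral ℤ (σ (⟨a, mem a⟩ : K)) := h3.map σ.toRingEquiv.toRingHom.toIntAlgHom
    have h6 : IsIntegral ℤ (algebraMap K ℂ (σ (⟨a, mem a⟩ : K))) :=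
      h5.map (algebraMap K ℂ).toIntAlgHom
    exact h6
  refine ⟨{ toFun := fun a => ⟨(σ ⟨a, mem a⟩ : K), hint a⟩
            map_one' := ?_
            map_mul' := ?_
            map_zero' := ?_
            map_add' := ?_ }, ?_⟩
  · apply Subtype.ext
    change ((σ 1 : K) : ℂ) = 1
    rw [map_one]
    rfl
  · intro a b
    apply Subtype.ext
    change ((σ ((⟨a, mem a⟩ : K) * ⟨b, mem b⟩) : K) : ℂ) = (σ ⟨a, mem a⟩ : K) * (σ ⟨b, mem b⟩ : K)
    rw [map_mul]
    rfl
  · apply Subtype.ext
    change ((σ 0 : K) : ℂ) = 0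
    rw [map_zero]
    rfl
  · intro a b
    apply Subtype.ext
    change ((σ ((⟨a, mem a⟩ : K) + ⟨b, mem b⟩) : K) : ℂ) = (σ ⟨a, mem a⟩ : K) + (σ ⟨b, mem b⟩ : K)
    rw [map_add]
    rfl
  · apply Subtype.ext
    change ((σ ⟨x, mem x⟩ : K) : ℂ) = y
    rw [hσ]

/-- the conjugation of the square root of a natural number which is not a square -/
theorem exists_neg {n : ℕ} (hn : ¬ IsSquare n) {s : AI} (hs : s ^ 2 = n) :
    ∃ τ : AI →+* AI, τ s = -s := by
  apply exists_aut
  have hs' : (s : ℂ) ^ 2 = n := by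
    have := congrArg (fun y : AI => (y : ℂ)) hs
    push_cast at this
    exact this
  have h1 : Irreducible (X ^ 2 - C (n : ℚ) : ℚ[X]) := by
    apply X_pow_sub_C_irreducible_of_prime Nat.prime_two
    intro b hb
    apply hn
    rw [← Rat.isSquare_natCast_iff]
    exact ⟨b, by rw [← hb]; ring⟩
  have h2 : (X ^ 2 - C (n : ℚ) : ℚ[X]) = minpoly ℚ (s : ℂ) := by
    apply minpoly.eq_of_irreducible_of_monic h1
    · simp [hs']
    · exact monic_X_pow_sub_C _ (by norm_num)
  rw [← h2]
  simp [hs']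

/-- an automorphism which fixes the roots of unity of order prime to `p` and moves `√p` -/
theorem exists_gal {p : ℕ} (hp : p.Prime) (hp2 : p ≠ 2) {N : ℕ} (hN : 0 < N) (hpN : ¬ p ∣ N) :
    ∃ τ : AI →+* AI, (∀ w : AI, w ^ N = 1 → τ w = w) ∧ (∀ s : AI, s ^ 2 = p → τ s = -s) := by
  have := Fact.mk hp
  set n0 := 4 * N * p with hn0
  have hn0' : n0 ≠ 0 := by
    have := hp.pos
    positivity
  have hne : NeZero n0 := ⟨hn0'⟩
  have hrc : ringChar (ZMod p) ≠ 2 := by
    rw [ZMod.ringChar_zmod_n]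
    exact hp2
  obtain ⟨c, hc⟩ := quadraticChar_exists_neg_one hrc
  have hcop : Nat.Coprime (4 * N) p := by
    rw [Nat.coprime_comm, hp.coprime_iff_not_dvd]
    intro h
    rcases hp.dvd_mul.1 h with h | h
    · have h2 : p ∣ 2 ^ 2 := h
      have h3 := hp.dvd_of_dvd_pow h2
      exact hp2 ((Nat.prime_dvd_prime_iff_eq hp Nat.prime_two).1 h3)
    · exact hpN h
  obtain ⟨b, hb1, hb2⟩ := Nat.chineseRemainder hcop 1 c.val
  have hbc : (b : ZMod p) = c := by
    have h1 : (b : ZMod p) = ((c.val : ℕ) : ZMod p) := (ZMod.natCast_eq_natCast_iff _ _ _).2 hb2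
    rw [h1, ZMod.natCast_zmod_val]
  have hb0 : c ≠ 0 := by
    rintro rfl
    rw [quadraticChar_zero] at hc
    norm_num at hc
  have hbcop : Nat.Coprime b n0 := by
    rw [hn0]
    apply Nat.Coprime.mul_right
    · have h1 : Nat.gcd b (4 * N) = Nat.gcd 1 (4 * N) := hb1.gcd_eq
      rw [Nat.Coprime, h1, Nat.gcd_one_left]
    · rw [Nat.coprime_comm, hp.coprime_iff_not_dvd]
      intro h
      apply hb0
      rw [← hbc]
      exact (ZMod.natCast_eq_zero_iff _ _).2 h
  -- the automorphism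
  have hζ : IsPrimitiveRoot (Complex.exp (2 * Real.pi * Complex.I / n0)) n0 :=
    Complex.isPrimitiveRoot_exp n0 hn0'
  set z : AI := ⟨Complex.exp (2 * Real.pi * Complex.I / n0), hζ.isIntegral (Nat.pos_of_ne_zero hn0')⟩
    with hz
  have hz' : IsPrimitiveRoot z n0 := by
    have h1 : IsPrimitiveRoot ((algebraMap AI ℂ) z) n0 := hζ
    exact h1.of_map_of_injective (FaithfulSMul.algebraMap_injective AI ℂ)
  obtain ⟨τ, hτ⟩ : ∃ τ : AI →+* AI, τ z = z ^ b := by
    apply exists_aut
    have h1 : IsPrimitiveRoot ((z : ℂ) ^ b) n0 := hζ.pow_of_coprime b hbcop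
    have h2 : minpoly ℚ (z : ℂ) = minpoly ℚ ((z : ℂ) ^ b) := by
      rw [← cyclotomic_eq_minpoly_rat hζ (Nat.pos_of_ne_zero hn0'),
        ← cyclotomic_eq_minpoly_rat h1 (Nat.pos_of_ne_zero hn0')]
    rw [h2]
    push_cast
    exact minpoly.aeval _ _
  have hroot : ∀ w : AI, w ^ n0 = 1 → τ w = w ^ b := by
    intro w hw
    obtain ⟨i, _, rfl⟩ := hz'.eq_pow_of_pow_eq_one hw
    rw [map_pow, hτ]
    ring
  have hfix : ∀ w : AI, w ^ (4 * N) = 1 → τ w = w := by
    intro w hw
    rw [hroot w (by rw [hn0, pow_mul, hw, one_pow])]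
    have h1 : b % (4 * N) = 1 % (4 * N) := hb1
    have h2 : w ^ b = w ^ (b % (4 * N)) := by
      conv_lhs => rw [← Nat.div_add_mod b (4 * N), pow_add, pow_mul, hw, one_pow, one_mul]
    have h3 : 1 % (4 * N) = 1 := Nat.mod_eq_of_lt (by omega)
    rw [h2, h1, h3, pow_one]
  refine ⟨τ, ?_, ?_⟩
  · intro w hw
    apply hfix
    rw [mul_comm, pow_mul, hw, one_pow]
  · intro s hs
    -- the Gauss sum
    have hzp : IsPrimitiveRoot (z ^ (4 * N)) p := hz'.pow (Nat.pos_of_ne_zero hn0') rfl
    set ψ : AddChar (ZMod p) AI := AddChar.zmodChar p ((IsPrimitiveRoot.iff_def _ p).mp hzp).left with hψ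
    have hψp : ψ.IsPrimitive := AddChar.zmodChar_primitive_of_primitive_root p hzp
    set χ : MulChar (ZMod p) AI := (quadraticChar (ZMod p)).ringHomComp (Int.castRingHom AI) with hχ
    have hinj : Function.Injective (Int.castRingHom AI) := Int.cast_injective
    have hχ1 : χ ≠ 1 := by
      intro h
      have h1 : χ c = 1 := by
        rw [h, MulChar.one_apply (isUnit_iff_ne_zero.2 hb0)]
      have h2 : χ c = -1 := by
        rw [hχ, MulChar.ringHomComp_apply, hc]
        simp
      rw [h1] at h2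
      have h3 : ((1 : ℤ) : AI) = ((-1 : ℤ) : AI) := by
        push_cast
        exact h2
      have := Int.cast_injective h3
      norm_num at this
    have hχ2 : χ.IsQuadratic := (quadraticChar_isQuadratic (ZMod p)).comp _
    have hg := gaussSum_sq hχ1 hχ2 hψp
    rw [ZMod.card] at hg
    set g := gaussSum χ ψ with hgdef
    have hτg : τ g = -g := by
      have hcu : IsUnit c := isUnit_iff_ne_zero.2 hb0
      have h1 : τ g = gaussSum χ (AddChar.mulShift ψ (hcu.unit : ZMod p)) := by
        rw [hgdef]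
        unfold gaussSum
        rw [map_sum]
        apply sum_congr rfl
        intro t _
        rw [map_mul]
        congr 1
        · rw [hχ, MulChar.ringHomComp_apply]
          simp
        · have h2 : ψ t ^ p = 1 := by
            rw [← AddChar.map_nsmul_eq_pow]
            simp
          rw [hroot (ψ t) (by rw [hn0, mul_comm, pow_mul, h2, one_pow]), ← AddChar.map_nsmul_eq_pow,
            AddChar.mulShift_apply]
          congr 1
          rw [nsmul_eq_mul, hbc]
          rfl
      have h2 := gaussSum_mulShift χ ψ hcu.unit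
      have h3 : χ (hcu.unit : ZMod p) = -1 := by
        rw [IsUnit.unit_spec, hχ, MulChar.ringHomComp_apply, hc]
        simp
      rw [h3, ← h1] at h2
      have h4 : -1 * τ g = g := h2
      calc τ g = -(-1 * τ g) := by ring
        _ = -g := by rw [h4]
    have hneg : χ (-1) = 1 ∨ χ (-1) = -1 := by
      rcases hχ2 (-1) with h | h | h
      · exfalso
        have h1 : IsUnit (χ (-1 : ZMod p)) := (isUnit_one.neg).map χ
        rw [h] at h1
        exact not_isUnit_zero h1
      · exact Or.inl h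
      · exact Or.inr h
    rcases hneg with h | h
    · rw [h, one_mul, ← hs] at hg
      rcases sq_eq_sq_iff_eq_or_eq_neg.1 hg with h1 | h1
      · rw [← h1]
        exact hτg
      · have h2 : s = -g := by rw [h1, neg_neg]
        rw [h2, map_neg, hτg]
    · -- the square root of `-1`
      set ι : AI := z ^ (N * p) with hι
      have hι4 : IsPrimitiveRoot ι 4 := hz'.pow (Nat.pos_of_ne_zero hn0') (by rw [hn0]; ring)
      have hι2 : ι ^ 2 = -1 := by
        have h1 : IsPrimitiveRoot (ι ^ 2) 2 := hι4.pow (by norm_num) (by norm_num)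
        exact h1.eq_neg_one_of_two_right
      have hτι : τ ι = ι := by
        apply hfix
        rw [pow_mul, hι4.pow_eq_one, one_pow]
      have hι0 : ι ≠ 0 := hι4.ne_zero (by norm_num)
      have h1 : (ι * s) ^ 2 = g ^ 2 := by
        rw [mul_pow, hι2, hs, hg, h]
      have h2 : τ (ι * s) = -(ι * s) := by
        rcases sq_eq_sq_iff_eq_or_eq_neg.1 h1 with h3 | h3
        · rw [h3, hτg]
        · rw [h3, map_neg, hτg]
      rw [map_mul, hτι] at h2
      apply mul_left_cancel₀ hι0
      rw [h2]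
      ring

end Pool.Agent.H23.EL
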