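import Pool.Agent.H23.EL.Mod
import Pool.Agent.H23.EL.Gal

/-!
# Zeros at rational angles and the central zero
-/

set_option autoImplicit false

open Finset Polynomial
open Pool.Agent.H341R2.Sharp (Mon mem_Mon)
open Pool.Agent.H23.FF Pool.Agent.H23.PC

namespace Pool.Agent.H23.EL

variable {F : Type} [Field F] [Fintype F]

/-- roots of unity of order prime to `l` with reduction `1` -/
theorem root_one {l : ℕ} (hl : l.Prime) {k : Type} [Field k] (hk : (l : k) = 0) (π : AI →+* k)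
    {m : ℕ} (hm : ¬ l ∣ m) {v : AI} (hv : v ^ m = 1) (hπ : π v = 1) : v = 1 := by
  by_contra h
  have h1 : (∑ i ∈ range m, v ^ i) * (v - 1) = 0 := by
    rw [geom_sum_mul, hv, sub_self]
  rcases mul_eq_zero.1 h1 with h2 | h2
  · have h3 := congrArg π h2
    rw [map_sum, map_zero] at h3
    have h4 : ∑ i ∈ range m, π (v ^ i) = (m : k) := by
      rw [sum_congr rfl (fun i _ => by rw [map_pow, hπ, one_pow]), sum_const, card_range, nsmul_one]
    rw [h4] at h3
    have : CharP k l := (CharP.charP_iff_prime_eq_zero hl).2 hk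
    exact hm ((CharP.cast_eq_zero_iff k l m).1 h3)
  · exact h (sub_eq_zero.1 h2)

theorem cast_ne {l : ℕ} (hl : l.Prime) {k : Type} [Field k] (hk : (l : k) = 0) {m : ℕ}
    (hm : ¬ l ∣ m) : (m : k) ≠ 0 := by
  have : CharP k l := (CharP.charP_iff_prime_eq_zero hl).2 hk
  rw [Ne, CharP.cast_eq_zero_iff k l]
  exact hm

/-- the square root as an algebraic integer -/
theorem sqrt_int (n : ℕ) : ∃ s : AI, (s : ℂ) = ((√(n : ℝ) : ℝ) : ℂ) ∧ s ^ 2 = (n : AI) := by
  have h1 : (((√(n : ℝ) : ℝ) : ℂ)) ^ 2 = (n : ℂ) := by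
    rw [← Complex.ofReal_pow, Real.sq_sqrt (by positivity), Complex.ofReal_natCast]
  have h2 : IsIntegral ℤ (((√(n : ℝ) : ℝ) : ℂ)) := by
    apply IsIntegral.of_pow (n := 2) (by norm_num)
    rw [h1, ← map_natCast (algebraMap ℤ ℂ) n]
    exact isIntegral_algebraMap
  refine ⟨⟨_, h2⟩, rfl, ?_⟩
  apply Subtype.ext
  push_cast
  exact h1

/-- the conditions on a zero `u = (s w)⁻¹`, `s = √q`, `w` a root of unity, at all places above `l` -/
theorem places {l j d : ℕ} (hl : l.Prime) {Q : F[X]} (hd : Q.natDegree = d) {ψ : F[X] → ℂ}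
    (h : DC Q ψ) (hj : ∀ f, IsCoprime f Q → ψ f ^ l ^ j = 1) (hn : NT Q ψ)
    (hlq : ¬ l ∣ Fintype.card F) {s w : AI} (hs : s ^ 2 = (Fintype.card F : AI)) {m : ℕ} (hm : 0 < m)
    (hw : w ^ m = 1) {u : ℂ} (hu : ((s * w : AI) : ℂ) * u = 1)
    (h0 : ∑ n ∈ range d, cf ψ n * u ^ n = 0) {k : Type} [Field k] (hk : (l : k) = 0) (π : AI →+* k) :
    ∃ P ∈ prs Q, (π s * π w) ^ P.natDegree = 1 := by
  have hq := cast_ne hl hk hlq
  have h1 : π (s * w) ≠ 0 := by
    rw [map_mul]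
    apply mul_ne_zero
    · intro h2
      apply hq
      rw [← map_natCast π, ← hs, map_pow, h2, zero_pow (by norm_num)]
    · intro h2
      have h3 := congrArg π hw
      rw [map_pow, h2, zero_pow hm.ne', map_one] at h3
      exact zero_ne_one h3
  obtain ⟨P, hP, h2⟩ := red_zero hl hk π hd h hj hn hu h0 h1
  rw [map_mul] at h2
  exact ⟨P, hP, h2⟩

omit [Fintype F] in
theorem odd_prod (S : Finset F[X]) (h : ∀ P ∈ S, Odd P.natDegree) : Odd (∏ P ∈ S, P.natDegree) := by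
  classical
  induction S using Finset.induction_on with
  | empty => simp
  | insert P S hPS ih =>
    rw [prod_insert hPS]
    exact (h P (mem_insert_self _ _)).mul (ih (fun R hR => h R (mem_insert_of_mem hR)))

/-- the prime-to-`l` part of the order of the angle -/
theorem order {l j d : ℕ} (hl : l.Prime) {Q : F[X]} (hd : Q.natDegree = d) {ψ : F[X] → ℂ}
    (h : DC Q ψ) (hj : ∀ f, IsCoprime f Q → ψ f ^ l ^ j = 1) (hn : NT Q ψ)
    (hlq : ¬ l ∣ Fintype.card F) {s w : AI} (hs : s ^ 2 = (Fintype.card F : AI)) {m : ℕ} (hm : 0 < m)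
    (hw : w ^ m = 1) {u : ℂ} (hu : ((s * w : AI) : ℂ) * u = 1)
    (h0 : ∑ n ∈ range d, cf ψ n * u ^ n = 0) :
    ∃ a : ℕ, w ^ (2 * (∏ P ∈ prs Q, P.natDegree) * l ^ a) = 1 := by
  obtain ⟨k, _, π, hk⟩ := exists_place hl
  set N := ∏ P ∈ prs Q, P.natDegree with hN
  have hq := cast_ne hl hk hlq
  obtain ⟨P, hP, h1⟩ := places hl hd h hj hn hlq hs hm hw hu h0 hk π
  obtain ⟨P', hP', h2⟩ := red_q hl hk π h hj hn hq
  have h1' : (π s * π w) ^ N = 1 := by
    obtain ⟨c, hc⟩ := dvd_prod_of_mem (fun P : F[X] => P.natDegree) hP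
    rw [hN, hc, pow_mul, h1, one_pow]
  have h2' : (Fintype.card F : k) ^ N = 1 := by
    obtain ⟨c, hc⟩ := dvd_prod_of_mem (fun P : F[X] => P.natDegree) hP'
    rw [hN, hc, pow_mul, h2, one_pow]
  obtain ⟨a, m', hm', rfl⟩ := Nat.exists_eq_pow_mul_and_not_dvd hm.ne' l hl.ne_one
  refine ⟨a, ?_⟩
  apply root_one hl hk π hm'
  · rw [← pow_mul]
    have e : 2 * N * l ^ a * m' = l ^ a * m' * (2 * N) := by ring
    rw [e, pow_mul, hw, one_pow]
  · have hsq : (π s) ^ 2 = (Fintype.card F : k) := by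
      rw [← map_pow, hs, map_natCast]
    have h3 : (π w) ^ (2 * N) = 1 := by
      have h4 : ((π s * π w) ^ N) ^ 2 = ((π s) ^ 2) ^ N * (π w) ^ (2 * N) := by ring
      rw [h1', hsq, h2', one_pow, one_mul] at h4
      exact h4.symm
    rw [map_pow, pow_mul, h3, one_pow]

/-- **no zeros at rational angles** -/
theorem no_angle {l j d : ℕ} (hl : l.Prime) (hl2 : l ≠ 2) {Q : F[X]} (hd : Q.natDegree = d)
    {ψ : F[X] → ℂ} (h : DC Q ψ) (hj : ∀ f, IsCoprime f Q → ψ f ^ l ^ j = 1) (hn : NT Q ψ)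
    (hlq : ¬ l ∣ Fintype.card F) (hsq : ¬ IsSquare (Fintype.card F))
    (hodd : ∀ P ∈ prs Q, Odd P.natDegree) {s w : AI} (hs : s ^ 2 = (Fintype.card F : AI)) {m : ℕ}
    (hm : 0 < m) (hw : w ^ m = 1) {u : ℂ} (hu : ((s * w : AI) : ℂ) * u = 1) :
    ∑ n ∈ range d, cf ψ n * u ^ n ≠ 0 := by
  intro h0
  obtain ⟨a, ha⟩ := order hl hd h hj hn hlq hs hm hw hu h0
  set N := ∏ P ∈ prs Q, P.natDegree with hN
  have hNodd : Odd N := odd_prod _ hodd
  have hlodd : Odd (l ^ a) := (hl.odd_of_ne_two hl2).pow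
  have h2 : w ^ (N * l ^ a) = 1 ∨ w ^ (N * l ^ a) = -1 := by
    apply sq_eq_sq_iff_eq_or_eq_neg.1
    rw [one_pow, ← pow_mul, ← ha]
    congr 1
    ring
  have key : ∀ {k : Type} [Field k] (_ : (l : k) = 0) (π : AI →+* k),
      (π s) ^ (N * l ^ a) * π (w ^ (N * l ^ a)) = 1 := by
    intro k _ hk π
    obtain ⟨P, hP, h1⟩ := places hl hd h hj hn hlq hs hm hw hu h0 hk π
    obtain ⟨c, hc⟩ := dvd_prod_of_mem (fun P : F[X] => P.natDegree) hP
    rw [map_pow, ← mul_pow, hN, hc, pow_mul, pow_mul, h1, one_pow, one_pow]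
  obtain ⟨k, _, π, hk⟩ := exists_place hl
  obtain ⟨τ, hτ⟩ := exists_neg hsq hs
  have h3 := key hk π
  have h4 := key hk (π.comp τ)
  have h5 : (π.comp τ) (w ^ (N * l ^ a)) = π (w ^ (N * l ^ a)) := by
    rcases h2 with h2 | h2
    · rw [h2, map_one, map_one]
    · rw [h2, map_neg, map_neg, map_one, map_one]
  rw [h5, RingHom.comp_apply, hτ, map_neg, (hNodd.mul hlodd).neg_pow, neg_mul, h3] at h4
  have h6 : (2 : k) = 0 := by linear_combination -h4
  exact cast_ne hl hk (m := 2) (fun h7 => hl2 ((Nat.prime_dvd_prime_iff_eq hl Nat.prime_two).1 h7)) (by exact_mod_cast h6)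

/-- **the central zero** -/
theorem central {l j d : ℕ} (hl : l.Prime) (hl2 : l ≠ 2) {Q : F[X]} (hd : Q.natDegree = d)
    {ψ : F[X] → ℂ} (h : DC Q ψ) (hj : ∀ f, IsCoprime f Q → ψ f ^ l ^ j = 1) (hn : NT Q ψ)
    (hlq : ¬ l ∣ Fintype.card F) (hr : ∀ P ∈ prs Q, ∀ r : ℕ, r ^ 2 = Fintype.card F ^ P.natDegree →
      ¬ r ≡ 1 [MOD l]) {u : ℂ} (hu : ((√(Fintype.card F : ℝ) : ℝ) : ℂ) * u = 1) :
    ∑ n ∈ range d, cf ψ n * u ^ n ≠ 0 := by
  intro h0
  have hlk : ∀ {k : Type} [Field k] (_ : (l : k) = 0) (r : ℕ), (r : k) = 1 → r ≡ 1 [MOD l] := by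
    intro k _ hk r hr1
    have : CharP k l := (CharP.charP_iff_prime_eq_zero hl).2 hk
    rw [← Nat.cast_one] at hr1
    exact (CharP.natCast_eq_natCast k l).1 hr1
  obtain ⟨s, hs, hs2⟩ := sqrt_int (Fintype.card F)
  have key : ∀ {k : Type} [Field k] (_ : (l : k) = 0) (π : AI →+* k),
      ∃ P ∈ prs Q, (π s) ^ P.natDegree = 1 := by
    intro k _ hk π
    obtain ⟨P, hP, h1⟩ := places hl hd h hj hn hlq hs2 (w := 1) (m := 1) one_pos (one_pow 1) (u := u)
      (by rw [mul_one, hs]; exact hu) h0 hk π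
    rw [map_one, mul_one] at h1
    exact ⟨P, hP, h1⟩
  obtain ⟨k, _, π, hk⟩ := exists_place hl
  by_cases hsq : IsSquare (Fintype.card F)
  · obtain ⟨r0, hr0⟩ := hsq
    have hs0 : s = (r0 : AI) := by
      apply Subtype.ext
      push_cast
      rw [hs, hr0]
      have : √((r0 * r0 : ℕ) : ℝ) = r0 := by
        push_cast
        exact Real.sqrt_mul_self (Nat.cast_nonneg _)
      rw [this, Complex.ofReal_natCast]
    obtain ⟨P, hP, h1⟩ := key hk π
    rw [hs0, map_natCast] at h1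
    refine hr P hP (r0 ^ P.natDegree) ?_ (hlk hk _ ?_)
    · rw [hr0]
      ring
    · push_cast
      exact h1
  · obtain ⟨τ, hτ⟩ := exists_neg hsq hs2
    have hod : ∀ {k : Type} [Field k] (_ : (l : k) = 0) (π : AI →+* k), ∀ P ∈ prs Q,
        (π s) ^ P.natDegree = 1 → Odd P.natDegree := by
      intro k _ hk π P hP h1
      by_contra he
      rw [Nat.not_odd_iff_even] at he
      obtain ⟨e, he⟩ := he
      refine hr P hP (Fintype.card F ^ e) ?_ (hlk hk _ ?_)
      · rw [he]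
        ring
      · push_cast
        rw [← map_natCast π, ← hs2, ← h1, he, map_pow]
        ring
    obtain ⟨P, hP, h1⟩ := key hk π
    obtain ⟨P', hP', h2⟩ := key hk (π.comp τ)
    have h3 := hod hk π P hP h1
    have h4 := hod hk (π.comp τ) P' hP' h2
    rw [RingHom.comp_apply, hτ, map_neg, h4.neg_pow] at h2
    have h5 : (π s) ^ P'.natDegree = -1 := by rw [← h2, neg_neg]
    have h6 : (π s) ^ (P.natDegree * P'.natDegree) = 1 := by rw [pow_mul, h1, one_pow]
    have h7 : (π s) ^ (P.natDegree * P'.natDegree) = -1 := by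
      rw [mul_comm, pow_mul, h5, h3.neg_one_pow]
    rw [h6] at h7
    have h8 : (2 : k) = 0 := by linear_combination h7
    exact cast_ne hl hk (m := 2) (fun h9 => hl2 ((Nat.prime_dvd_prime_iff_eq hl Nat.prime_two).1 h9))
      (by exact_mod_cast h8)

end Pool.Agent.H23.EL
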