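import Pool.Agent.H23.EL.Main

/-!
# Distinct zeros of the L-functions of `η ψ`
-/

set_option autoImplicit false

open Finset Polynomial
open Pool.Agent.H341R2.Sharp (Mon mem_Mon)
open Pool.Agent.H23.FF Pool.Agent.H23.PC

namespace Pool.Agent.H23.EL

variable {F : Type} [Field F] [Fintype F]

omit [Fintype F] in
theorem coprime_iff {P f : F[X]} (hP : Irreducible P) : IsCoprime f P ↔ ¬ P ∣ f := by
  rw [isCoprime_comm]
  exact hP.coprime_iff_not_dvd

theorem psi_red {l j : ℕ} (hl : l.Prime) {k : Type} [Field k] (hk : (l : k) = 0) (π : AI →+* k)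
    {P : F[X]} (hP : Irreducible P) {ψ : F[X] → ℂ} (h : DC P ψ)
    (hj : ∀ f, IsCoprime f P → ψ f ^ l ^ j = 1) (f : F[X]) [Decidable (P ∣ f)] :
    π (vI h f) = if P ∣ f then 0 else 1 := by
  split_ifs with hd
  · rw [vI_zero h (by rw [coprime_iff hP, not_not]; exact hd), map_zero]
  · apply red_one hl hk π (j := j)
    exact Subtype.ext (hj f ((coprime_iff hP).2 hd))

/-- `q ^ deg P = 1` modulo the place -/
theorem q_pow_one {l j M : ℕ} (hl : l.Prime) {k : Type} [Field k] (hk : (l : k) = 0) (π : AI →+* k)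
    {P : F[X]} (hP : Irreducible P) (hM : P.natDegree = M) {ψ : F[X] → ℂ} (h : DC P ψ)
    (hj : ∀ f, IsCoprime f P → ψ f ^ l ^ j = 1) (hn : NT P ψ) : (Fintype.card F : k) ^ M = 1 := by
  classical
  have h1 := sum_Lo_zero h hM hn
  have h2 : ∑ a ∈ Lo F M, vI h a = 0 := by
    apply Subtype.ext
    push_cast
    exact h1
  have h3 := congrArg π h2
  rw [map_sum, map_zero, sum_congr rfl (fun f _ => psi_red hl hk π hP h hj f)] at h3
  have h4 : ∀ f ∈ Lo F M, (if P ∣ f then (0 : k) else 1) = 1 - (if f = 0 then 1 else 0) := by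
    intro f hf
    by_cases h0 : f = 0
    · rw [if_pos h0, if_pos (by rw [h0]; exact dvd_zero _), sub_self]
    · rw [if_neg h0, if_neg, sub_zero]
      intro hd
      have h5 := natDegree_le_of_dvd hd h0
      rw [mem_Lo, degree_eq_natDegree h0] at hf
      have : f.natDegree < M := by exact_mod_cast hf
      omega
  rw [sum_congr rfl h4, sum_sub_distrib, sum_const, card_Lo, nsmul_one, sum_ite_eq',
    if_pos (by rw [mem_Lo, degree_zero]; exact WithBot.bot_lt_coe M)] at h3
  have := sub_eq_zero.1 h3
  push_cast at this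
  exact this

omit [Fintype F] in
theorem DC_mul {D P : F[X]} {η ψ : F[X] → ℂ} (h : DC D η) (h' : DC P ψ) :
    DC (D * P) (fun f => η f * ψ f) := by
  refine ⟨h.monic.mul h'.monic, ?_, ?_, ?_, ?_⟩
  · change η 1 * ψ 1 = 1
    rw [h.one, h'.one, one_mul]
  · intro a b
    change η (a * b) * ψ (a * b) = η a * ψ a * (η b * ψ b)
    rw [h.mul, h'.mul]
    ring
  · intro a b hab
    change η a * ψ a = η b * ψ b
    rw [h.per a b ((dvd_mul_right _ _).trans hab), h'.per a b ((dvd_mul_left _ _).trans hab)]
  · intro a ha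
    change η a * ψ a = 0
    by_cases h1 : IsCoprime a D
    · have h2 : ¬ IsCoprime a P := fun h2 => ha (h1.mul_right h2)
      rw [h'.zero a h2, mul_zero]
    · rw [h.zero a h1, zero_mul]

omit [Fintype F] in
/-- a polynomial `≡ 1` modulo `D` with a given value of `ψ` -/
theorem exists_one_mod {D P : F[X]} {ψ : F[X] → ℂ} (h' : DC P ψ) (hc : IsCoprime P D)
    {f : F[X]} (hf : IsCoprime f P) : ∃ g, D ∣ g - 1 ∧ IsCoprime g P ∧ ψ g = ψ f := by
  obtain ⟨u, v, huv⟩ := hc
  refine ⟨u * P + f * (v * D), ⟨(f - 1) * v, ?_⟩, ?_, ?_⟩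
  · have : u * P = 1 - v * D := by rw [← huv]; ring
    rw [this]
    ring
  · have e : u * P + f * (v * D) = f + (u * (1 - f)) * P := by
      have : v * D = 1 - u * P := by rw [← huv]; ring
      rw [this]
      ring
    rw [e]
    exact hf.add_mul_right_left _
  · apply h'.per
    have e : u * P + f * (v * D) - f = P * (u * (1 - f)) := by
      have : v * D = 1 - u * P := by rw [← huv]; ring
      rw [this]
      ring
    exact ⟨_, e⟩

omit [Fintype F] in
theorem NT_mul {D P : F[X]} {η ψ : F[X] → ℂ} (h : DC D η) (h' : DC P ψ) (hc : IsCoprime P D)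
    (hn : NT P ψ) : NT (D * P) (fun f => η f * ψ f) := by
  obtain ⟨f, hf, hf1⟩ := hn
  obtain ⟨g, hg1, hg2, hg3⟩ := exists_one_mod h' hc hf
  refine ⟨g, ?_, ?_⟩
  · apply IsCoprime.mul_right _ hg2
    obtain ⟨w, hw⟩ := hg1
    have : g = 1 + D * w := by rw [← hw]; ring
    rw [this]
    exact isCoprime_one_left.add_mul_left_left w
  · change η g * ψ g ≠ 1
    rw [h.per g 1 hg1, h.one, one_mul, hg3]
    exact hf1

/-- the `M`-th roots of an element of the residue field that lifts -/
theorem exists_pow_roots {k : Type} [Field k] (π : AI →+* k) {M : ℕ} (hM : 1 ≤ M)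
    (hMk : (M : k) ≠ 0) (a : AI) (ha : π a ≠ 0) :
    ∃ T : Finset k, T.card = M ∧ ∀ x ∈ T, x ^ M = π a := by
  classical
  have hm : (X ^ M - C a : AI[X]).Monic := monic_X_pow_sub_C a (by omega)
  obtain ⟨t, ht⟩ := exists_roots hm
  have h1 : (X ^ M - C (π a) : k[X]) = ((t.map π).map (fun x => X - C x)).prod := by
    have := congrArg (Polynomial.map π) ht
    rw [Polynomial.map_multiset_prod, Multiset.map_map] at this
    simpa [Multiset.map_map, Function.comp_def] using this
  have h2 : (X ^ M - C (π a) : k[X]).roots = t.map π := by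
    rw [h1, roots_multiset_prod_X_sub_C]
  have h3 : (t.map π).Nodup := by
    rw [← h2]
    exact nodup_roots (separable_X_pow_sub_C _ hMk ha)
  have h4 : (t.map π).card = M := by
    have h5 := congrArg natDegree h1
    rw [natDegree_X_pow_sub_C, natDegree_multiset_prod_X_sub_C_eq_card] at h5
    exact h5.symm
  refine ⟨(t.map π).toFinset, ?_, ?_⟩
  · rw [Multiset.toFinset_card_of_nodup h3, h4]
  · intro x hx
    rw [Multiset.mem_toFinset, ← h2, mem_roots (monic_X_pow_sub_C _ (by omega)).ne_zero,
      IsRoot.def] at hx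
    simpa [sub_eq_zero] using hx

open Classical in
/-- **distinct zeros** -/
theorem distinct_ge {l j d M : ℕ} (hl : l.Prime) {D P : F[X]} {η ψ : F[X] → ℂ} (h : DC D η)
    (h' : DC P ψ) (hd : D.natDegree = d) (hM : P.natDegree = M) (hP : Irreducible P)
    (hc : IsCoprime P D) (hlM : ¬ l ∣ M) (hj : ∀ f, IsCoprime f P → ψ f ^ l ^ j = 1)
    (hn : NT P ψ) :
    M - 1 ≤ (Lp (d + M) (fun f => η f * ψ f)).roots.toFinset.card := by
  obtain ⟨k, _, π, hk⟩ := exists_place hl
  have hM1 : 1 ≤ M := by
    have := hP.natDegree_pos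
    omega
  have hq := q_pow_one hl hk π hP hM h' hj hn
  set g : F[X] → k := fun f => π (vI h f) with hg
  have hmul : ∀ a b, g (a * b) = g a * g b := by
    intro a b
    simp only [hg]
    rw [vI_mul, map_mul]
  have hper : ∀ a b, D ∣ a - b → g a = g b := by
    intro a b hab
    simp only [hg]
    rw [vI_per h hab]
  -- the value at `P` is a unit
  have hgP : g P ≠ 0 := by
    obtain ⟨N, hN, h1⟩ := DC_pow h hc
    have h2 : vI h P ^ N = 1 := Subtype.ext h1
    have h3 : g P ^ N = 1 := by
      simp only [hg]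
      rw [← map_pow, h2, map_one]
    intro h0
    rw [h0, zero_pow hN.ne'] at h3
    exact zero_ne_one h3
  have hMk : (M : k) ≠ 0 := by
    have : CharP k l := (CharP.charP_iff_prime_eq_zero hl).2 hk
    rw [Ne, CharP.cast_eq_zero_iff k l]
    exact hlM
  obtain ⟨T, hT, hTr⟩ := exists_pow_roots π hM1 hMk (vI h P) hgP
  set S := T.erase (Fintype.card F : k) with hS
  have hScard : M - 1 ≤ S.card := by
    rw [hS, ← hT]
    exact Finset.pred_card_le_card_erase
  refine hScard.trans ?_
  set A : ℕ → AI := fun n => ∑ f ∈ Mon F n, vI h f * vI h' f with hA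
  have hχ := DC_mul h h'
  have hA0 : A 0 = 1 := by
    apply Subtype.ext
    simp only [hA]
    push_cast
    exact cf_zero hχ
  have e : d + M = (d + M - 1) + 1 := by omega
  apply distinct (K := d + M - 1) hA0 π S
  · intro h0
    rw [hS, mem_erase] at h0
    have := hTr 0 h0.2
    rw [zero_pow (by omega)] at this
    exact hgP this.symm
  · intro x hx
    rw [hS, mem_erase] at hx
    have h1 := red_root h.monic hd h'.monic hM hc hM1 g hmul hper hq (hTr x hx.2) hx.1
    rw [← e]
    rw [← h1]
    apply sum_congr rfl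
    intro n _
    congr 1
    simp only [hA]
    rw [map_sum]
    apply sum_congr rfl
    intro f _
    rw [map_mul, psi_red hl hk π hP h' hj f]
  · unfold Lp
    rw [← e]
    apply sum_congr rfl
    intro n _
    congr 2
    simp only [hA]
    unfold cf
    push_cast
    rfl

open Classical in
/-- the excess of the zeros on a part of the plane -/
theorem excess (s : Multiset ℂ) (p : ℂ → Prop) {E : ℕ} (h : s.card ≤ s.toFinset.card + E) :
    (s.filter p).card ≤ (s.filter p).toFinset.card + E := by
  have h1 : s.card = (s.filter p).card + (s.filter (fun z => ¬ p z)).card := by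
    rw [← Multiset.card_add, Multiset.filter_add_not]
  have h2 : s.toFinset.card ≤ (s.filter p).toFinset.card + (s.filter (fun z => ¬ p z)).toFinset.card := by
    have : s.toFinset = (s.filter p).toFinset ∪ (s.filter (fun z => ¬ p z)).toFinset := by
      rw [← Multiset.toFinset_add, Multiset.filter_add_not]
    rw [this]
    exact Finset.card_union_le _ _
  have h3 := Multiset.toFinset_card_le (s.filter (fun z => ¬ p z))
  omega

open Classical in
/-- **the zeros on the critical circle** -/
theorem main {l j d M : ℕ} (hl : l.Prime) {D P : F[X]} {η ψ : F[X] → ℂ} (h : DC D η)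
    (h' : DC P ψ) (hd : D.natDegree = d) (hM : P.natDegree = M) (hP : Irreducible P)
    (hc : IsCoprime P D) (hlM : ¬ l ∣ M) (hj : ∀ f, IsCoprime f P → ψ f ^ l ^ j = 1)
    (hn : NT P ψ) :
    (crit F (Lp (d + M) (fun f => η f * ψ f))).card ≤
        (crit F (Lp (d + M) (fun f => η f * ψ f))).toFinset.card + d ∧
      M ≤ (crit F (Lp (d + M) (fun f => η f * ψ f))).card + 2 := by
  have hM1 : 1 ≤ M := by
    have := hP.natDegree_pos
    omega
  have hχ := DC_mul h h'
  have hdeg : (D * P).natDegree = d + M := by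
    rw [h.monic.natDegree_mul h'.monic, hd, hM]
  have hnχ := NT_mul h h' hc hn
  constructor
  · unfold crit
    apply excess
    have h1 := distinct_ge hl h h' hd hM hP hc hlM hj hn
    have h2 : (Lp (d + M) (fun f => η f * ψ f)).roots.card ≤ d + M - 1 :=
      (card_roots' _).trans (Lp_natDegree_le (by omega) _)
    omega
  · obtain ⟨D', χ', hI, _, _, h3⟩ := zeros hχ hdeg hnχ
    have h4 : P ∣ D' := by
      by_contra hPD
      have hcop : IsCoprime D' P := (coprime_iff hP).2 hPD
      have hD'D : D' ∣ D := hcop.dvd_of_dvd_mul_right hI.1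
      obtain ⟨f, hf, hf1⟩ := hn
      obtain ⟨g, hg1, hg2, hg3⟩ := exists_one_mod h' hc hf
      have hgD : IsCoprime g D := by
        obtain ⟨w, hw⟩ := hg1
        have : g = 1 + D * w := by rw [← hw]; ring
        rw [this]
        exact isCoprime_one_left.add_mul_left_left w
      have h5 := hI.2.2 g (hgD.mul_right hg2)
      rw [hI.2.1.per g 1 (hD'D.trans hg1), hI.2.1.one] at h5
      apply hf1
      change η g * ψ g = 1 at h5
      rw [h.per g 1 hg1, h.one, one_mul, hg3] at h5
      exact h5
    have h6 := natDegree_le_of_dvd h4 hI.2.1.monic.ne_zero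
    omega

end Pool.Agent.H23.EL
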