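import Pool.Agent.H23.EL.Red
import Pool.Agent.H23.PC.Crit

/-!
# The L-function of `η ψ`, `ψ` of `l`-power order modulo a prime `P`, modulo a place above `l`
-/

set_option autoImplicit false

open Finset Polynomial
open Pool.Agent.H341R2.Sharp (Mon mem_Mon)
open Pool.Agent.H23.FF Pool.Agent.H23.PC

namespace Pool.Agent.H23.EL

variable {F : Type} [Field F] [Fintype F]

theorem DC_pow {D : F[X]} {χ : F[X] → ℂ} (h : DC D χ) {a : F[X]} (ha : IsCoprime a D) :
    ∃ N : ℕ, 0 < N ∧ χ a ^ N = 1 := by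
  have hfin := finite_adj h.monic
  have hfin' : Finite (AdjoinRoot D)ˣ := inferInstance
  have h1 : un D a ^ Nat.card (AdjoinRoot D)ˣ = 1 := pow_card_eq_one'
  have hN : Nat.card (AdjoinRoot D)ˣ ≠ 0 := Nat.card_pos.ne'
  have h2 : AdjoinRoot.mk D (a ^ Nat.card (AdjoinRoot D)ˣ) = AdjoinRoot.mk D 1 := by
    rw [map_pow, ← un_coe ha, ← Units.val_pow_eq_pow_val, h1, Units.val_one, map_one]
  rw [AdjoinRoot.mk_eq_mk] at h2
  exact ⟨_, Nat.card_pos, by rw [← h.pow, h.per _ _ h2, h.one]⟩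

theorem DC_int {D : F[X]} {χ : F[X] → ℂ} (h : DC D χ) (a : F[X]) : χ a ∈ AI := by
  by_cases ha : IsCoprime a D
  · obtain ⟨N, hN, h1⟩ := DC_pow h ha
    have h2 : IsIntegral ℤ (χ a ^ N) := by
      rw [h1]
      exact isIntegral_one
    exact IsIntegral.of_pow hN h2
  · rw [h.zero a ha]
    exact AI.zero_mem

/-- the values as algebraic integers -/
noncomputable def vI {D : F[X]} {χ : F[X] → ℂ} (h : DC D χ) (f : F[X]) : AI := ⟨χ f, DC_int h f⟩

theorem vI_mul {D : F[X]} {χ : F[X] → ℂ} (h : DC D χ) (a b : F[X]) : vI h (a * b) = vI h a * vI h b :=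
  Subtype.ext (h.mul a b)

theorem vI_per {D : F[X]} {χ : F[X] → ℂ} (h : DC D χ) {a b : F[X]} (hab : D ∣ a - b) :
    vI h a = vI h b := Subtype.ext (h.per a b hab)

theorem vI_one {D : F[X]} {χ : F[X] → ℂ} (h : DC D χ) : vI h 1 = 1 := Subtype.ext h.one

theorem vI_zero {D : F[X]} {χ : F[X] → ℂ} (h : DC D χ) {a : F[X]} (ha : ¬ IsCoprime a D) :
    vI h a = 0 := Subtype.ext (h.zero a ha)

section place

variable {k : Type} [Field k]

open Classical in
/-- the multiples of `P` removed -/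
theorem sum_not_dvd {M : ℕ} {P : F[X]} (hP : P.Monic) (hM : P.natDegree = M) (g : F[X] → k)
    (hg : ∀ a b, g (a * b) = g a * g b) (n : ℕ) :
    ∑ f ∈ Mon F n, g f * (if P ∣ f then 0 else 1) =
      ∑ f ∈ Mon F n, g f - (if M ≤ n then g P * ∑ f ∈ Mon F (n - M), g f else 0) := by
  have h1 : ∑ f ∈ Mon F n, g f * (if P ∣ f then 0 else 1) =
      ∑ f ∈ Mon F n, g f - ∑ f ∈ (Mon F n).filter (fun f => P ∣ f), g f := by
    rw [sum_filter, ← sum_sub_distrib]
    apply sum_congr rfl
    intro f _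
    split_ifs <;> simp
  rw [h1]
  congr 1
  split_ifs with h
  · rw [mul_sum]
    refine sum_nbij' (fun f => f /ₘ P) (fun f => P * f) ?_ ?_ ?_ ?_ ?_
    · intro f hf
      rw [mem_filter, mem_Mon] at hf
      obtain ⟨⟨hf1, hf2⟩, g', rfl⟩ := hf
      rw [mul_divByMonic_cancel_left g' hP]
      have hg' : g'.Monic := hP.of_mul_monic_left hf1
      rw [mem_Mon]
      refine ⟨hg', ?_⟩
      rw [hP.natDegree_mul hg'] at hf2
      omega
    · intro f hf
      rw [mem_Mon] at hf
      rw [mem_filter, mem_Mon]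
      refine ⟨⟨hP.mul hf.1, ?_⟩, dvd_mul_right _ _⟩
      rw [hP.natDegree_mul hf.1]
      omega
    · intro f hf
      rw [mem_filter] at hf
      obtain ⟨_, g', rfl⟩ := hf
      rw [mul_divByMonic_cancel_left g' hP]
    · intro f _
      exact mul_divByMonic_cancel_left f hP
    · intro f hf
      rw [mem_filter] at hf
      obtain ⟨_, g', rfl⟩ := hf
      rw [mul_divByMonic_cancel_left g' hP, hg]
  · apply sum_eq_zero
    intro f hf
    rw [mem_filter, mem_Mon] at hf
    have := natDegree_le_of_dvd hf.2 hf.1.1.ne_zero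
    omega

/-- the sum over the monic polynomials of degree at least the degree of the modulus -/
theorem sum_large {d : ℕ} {D : F[X]} (hD : D.Monic) (hd : D.natDegree = d) (g : F[X] → k)
    (hg : ∀ a b, D ∣ a - b → g a = g b) (m : ℕ) :
    ∑ f ∈ Mon F (d + m), g f = (Fintype.card F : k) ^ m * ∑ b ∈ Lo F d, g b := by
  rw [sum_Mon_dec hD hd]
  have h1 : ∀ u ∈ Mon F m, ∑ b ∈ Lo F d, g (D * u + b) = ∑ b ∈ Lo F d, g b := by
    intro u _
    apply sum_congr rfl
    intro b _
    exact hg _ _ ⟨u, by ring⟩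
  rw [sum_congr rfl h1, sum_const, card_Mon, nsmul_eq_mul]
  push_cast
  ring

open Classical in
/-- the roots of the reduction -/
theorem red_root {d M : ℕ} {D P : F[X]} (hD : D.Monic) (hd : D.natDegree = d) (hP : P.Monic)
    (hM : P.natDegree = M) (hc : IsCoprime P D) (hM1 : 1 ≤ M) (g : F[X] → k)
    (hmul : ∀ a b, g (a * b) = g a * g b) (hper : ∀ a b, D ∣ a - b → g a = g b)
    (hq : (Fintype.card F : k) ^ M = 1) {x : k} (hx : x ^ M = g P) (hxq : x ≠ (Fintype.card F : k)) :
    ∑ n ∈ range (d + M), (∑ f ∈ Mon F n, g f * (if P ∣ f then 0 else 1)) * x ^ (d + M - 1 - n) = 0 := by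
  set B : ℕ → k := fun n => ∑ f ∈ Mon F n, g f with hB
  have h1 : ∀ n ∈ range (d + M), (∑ f ∈ Mon F n, g f * (if P ∣ f then 0 else 1)) *
      x ^ (d + M - 1 - n) = B n * x ^ (d + M - 1 - n) -
        (if M ≤ n then g P * B (n - M) * x ^ (d + M - 1 - n) else 0) := by
    intro n _
    rw [sum_not_dvd hP hM g hmul n, sub_mul]
    split_ifs <;> simp [hB]
  rw [sum_congr rfl h1, sum_sub_distrib]
  have h2 : ∑ n ∈ range (d + M), (if M ≤ n then g P * B (n - M) * x ^ (d + M - 1 - n) else 0) =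
      ∑ j ∈ range d, g P * B j * x ^ (d - 1 - j) := by
    rw [add_comm d M, sum_range_add]
    have h3 : ∑ n ∈ range M, (if M ≤ n then g P * B (n - M) * x ^ (M + d - 1 - n) else 0) = 0 := by
      apply sum_eq_zero
      intro n hn
      rw [mem_range] at hn
      rw [if_neg (by omega)]
    rw [h3, zero_add]
    apply sum_congr rfl
    intro j hj
    rw [mem_range] at hj
    rw [if_pos (Nat.le_add_right _ _), Nat.add_sub_cancel_left]
    congr 2
    omega
  have h4 : ∑ n ∈ range (d + M), B n * x ^ (d + M - 1 - n) =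
      ∑ j ∈ range d, g P * B j * x ^ (d - 1 - j) +
        (∑ b ∈ Lo F d, g b) * ∑ j ∈ range M, (Fintype.card F : k) ^ j * x ^ (M - 1 - j) := by
    rw [sum_range_add]
    congr 1
    · apply sum_congr rfl
      intro j hj
      rw [mem_range] at hj
      have e : d + M - 1 - j = M + (d - 1 - j) := by omega
      rw [e, pow_add, hx]
      ring
    · rw [mul_sum]
      apply sum_congr rfl
      intro j hj
      rw [mem_range] at hj
      have e : d + M - 1 - (d + j) = M - 1 - j := by omega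
      rw [e, hB]
      change (∑ f ∈ Mon F (d + j), g f) * _ = _
      rw [sum_large hD hd g hper]
      ring
  rw [h2, h4, add_sub_cancel_left]
  -- the sum over the residues
  have h5 : (∑ b ∈ Lo F d, g b) * (g P - 1) = 0 := by
    have h6 := sum_mul_unit hD hd hc g hper
    rw [sum_congr rfl (fun a _ => hmul a P), ← sum_mul] at h6
    rw [mul_sub, h6, mul_one, sub_self]
  have h7 : (∑ j ∈ range M, (Fintype.card F : k) ^ j * x ^ (M - 1 - j)) *
      ((Fintype.card F : k) - x) = (Fintype.card F : k) ^ M - x ^ M := geom_sum₂_mul _ _ _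
  rcases mul_eq_zero.1 h5 with h8 | h8
  · rw [h8, zero_mul]
  · rw [hq, hx, sub_eq_zero.1 h8, sub_self] at h7
    rcases mul_eq_zero.1 h7 with h9 | h9
    · rw [h9, mul_zero]
    · exact absurd (sub_eq_zero.1 h9).symm hxq

end place

end Pool.Agent.H23.EL
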