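import Pool.Agent.H23.EL.Dist

/-!
# The reduction of the L-function of a character of `l`-power order modulo a general modulus
-/

set_option autoImplicit false

open Finset Polynomial
open Pool.Agent.H341R2.Sharp (Mon mem_Mon)
open Pool.Agent.H23.FF Pool.Agent.H23.PC

namespace Pool.Agent.H23.EL

variable {F : Type} [Field F] [Fintype F]

section place

variable (k : Type) [Field k]

open Classical in
/-- the number of the monic polynomials of degree `n` without prime divisors in `S` -/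
noncomputable def bS (S : Finset F[X]) (n : ℕ) : k :=
  ∑ f ∈ Mon F n, if ∀ P ∈ S, ¬ P ∣ f then 1 else 0

variable {k}

open Classical in
theorem bS_insert {S : Finset F[X]} {P : F[X]} (hS : ∀ R ∈ S, R.Monic ∧ Irreducible R)
    (hP : P.Monic) (hP' : Irreducible P) (hPS : P ∉ S) (n : ℕ) :
    bS k (insert P S) n = bS k S n - (if P.natDegree ≤ n then bS k S (n - P.natDegree) else 0) := by
  set g : F[X] → k := fun f => if ∀ R ∈ S, ¬ R ∣ f then 1 else 0 with hg
  have hmul : ∀ a b, g (a * b) = g a * g b := by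
    intro a b
    simp only [hg]
    by_cases h1 : ∀ R ∈ S, ¬ R ∣ a
    · by_cases h2 : ∀ R ∈ S, ¬ R ∣ b
      · rw [if_pos h1, if_pos h2, if_pos, one_mul]
        intro R hR h3
        rcases (hS R hR).2.prime.dvd_or_dvd h3 with h4 | h4
        · exact h1 R hR h4
        · exact h2 R hR h4
      · rw [if_neg h2, if_neg, mul_zero]
        intro h3
        apply h2
        intro R hR h4
        exact h3 R hR (h4.mul_left a)
    · rw [if_neg h1, if_neg, zero_mul]
      intro h3
      apply h1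
      intro R hR h4
      exact h3 R hR (h4.mul_right b)
  have hgP : g P = 1 := by
    simp only [hg]
    rw [if_pos]
    intro R hR h1
    apply hPS
    have h2 : R = P := by
      apply eq_of_monic_of_associated (hS R hR).1 hP
      exact ((hS R hR).2.associated_of_dvd hP' h1)
    rw [← h2]
    exact hR
  have h1 := sum_not_dvd hP rfl g hmul n
  rw [hgP, one_mul] at h1
  unfold bS
  rw [← h1]
  apply sum_congr rfl
  intro f _
  simp only [hg]
  by_cases h2 : P ∣ f
  · rw [if_pos h2, mul_zero, if_neg]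
    intro h3
    exact h3 P (mem_insert_self _ _) h2
  · rw [if_neg h2, mul_one]
    congr 1
    apply propext
    constructor
    · intro h3 R hR
      exact h3 R (mem_insert_of_mem hR)
    · intro h3 R hR
      rcases mem_insert.1 hR with rfl | hR
      · exact h2
      · exact h3 R hR

theorem bS_prod (S : Finset F[X]) (hS : ∀ R ∈ S, R.Monic ∧ Irreducible R) :
    (PowerSeries.mk (bS k S)) * (1 - PowerSeries.C (Fintype.card F : k) * PowerSeries.X) =
      ∏ P ∈ S, (1 - (PowerSeries.X : PowerSeries k) ^ P.natDegree) := by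
  classical
  induction S using Finset.induction_on with
  | empty =>
    rw [prod_empty]
    have h1 : ∀ n, bS k (∅ : Finset F[X]) n = (Fintype.card F : k) ^ n := by
      intro n
      unfold bS
      simp [card_Mon]
    ext n
    rw [mul_sub, mul_one, map_sub, ← mul_assoc, mul_comm (PowerSeries.mk _) (PowerSeries.C _), mul_assoc,
      PowerSeries.coeff_C_mul, PowerSeries.coeff_mk]
    cases n with
    | zero =>
      rw [PowerSeries.coeff_zero_mul_X, h1, pow_zero, mul_zero, sub_zero, PowerSeries.coeff_zero_one]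
    | succ n =>
      rw [PowerSeries.coeff_succ_mul_X, PowerSeries.coeff_mk, h1, h1, PowerSeries.coeff_one,
        if_neg (Nat.succ_ne_zero n)]
      ring
  | insert P S hPS ih =>
    have hS' : ∀ R ∈ S, R.Monic ∧ Irreducible R := fun R hR => hS R (mem_insert_of_mem hR)
    obtain ⟨hP, hP'⟩ := hS P (mem_insert_self _ _)
    have h1 : PowerSeries.mk (bS k (insert P S)) =
        PowerSeries.mk (bS k S) * (1 - (PowerSeries.X : PowerSeries k) ^ P.natDegree) := by
      ext n
      rw [PowerSeries.coeff_mk, bS_insert hS' hP hP' hPS, mul_sub, mul_one, map_sub, PowerSeries.coeff_mk,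
        PowerSeries.coeff_mul_X_pow']
      split_ifs
      · rw [PowerSeries.coeff_mk]
      · rfl
    rw [prod_insert hPS, ← ih hS', h1]
    ring

/-- the reduction as a polynomial -/
theorem bS_poly (S : Finset F[X]) (hS : ∀ R ∈ S, R.Monic ∧ Irreducible R) {d : ℕ}
    (hd : ∀ n, d ≤ n → bS k S n = 0) :
    (∑ n ∈ range d, C (bS k S n) * X ^ n) * (1 - C (Fintype.card F : k) * X) =
      ∏ P ∈ S, (1 - (X : k[X]) ^ P.natDegree) := by
  set p : k[X] := ∑ n ∈ range d, C (bS k S n) * X ^ n with hp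
  have h1 : (p : PowerSeries k) = PowerSeries.mk (bS k S) := by
    ext n
    rw [Polynomial.coeff_coe, PowerSeries.coeff_mk, hp, finsetSum_coeff]
    simp_rw [coeff_C_mul_X_pow]
    by_cases hnd : n < d
    · rw [sum_eq_single n]
      · simp
      · intro m _ hm
        rw [if_neg (Ne.symm hm)]
      · intro h'
        exact absurd (mem_range.2 hnd) h'
    · rw [hd n (by omega)]
      apply sum_eq_zero
      intro m hm
      rw [mem_range] at hm
      rw [if_neg (by omega)]
  apply Polynomial.coe_injective k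
  rw [Polynomial.coe_mul, h1]
  have h3 := bS_prod (k := k) S hS
  have h4 : ((1 - C (Fintype.card F : k) * X : k[X]) : PowerSeries k) =
      1 - PowerSeries.C (Fintype.card F : k) * PowerSeries.X := by
    rw [Polynomial.coe_sub, Polynomial.coe_one, Polynomial.coe_mul, Polynomial.coe_C, Polynomial.coe_X]
  have h5 : ((∏ P ∈ S, (1 - (X : k[X]) ^ P.natDegree) : k[X]) : PowerSeries k) =
      ∏ P ∈ S, (1 - (PowerSeries.X : PowerSeries k) ^ P.natDegree) := by
    rw [← Polynomial.coeToPowerSeries.ringHom_apply, map_prod]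
    apply prod_congr rfl
    intro P _
    rw [Polynomial.coeToPowerSeries.ringHom_apply, Polynomial.coe_sub, Polynomial.coe_one,
      Polynomial.coe_pow, Polynomial.coe_X]
  rw [h4, h5, h3]

/-- the values of the reduction -/
theorem bS_eval (S : Finset F[X]) (hS : ∀ R ∈ S, R.Monic ∧ Irreducible R) {d : ℕ}
    (hd : ∀ n, d ≤ n → bS k S n = 0) (y : k) :
    (∑ n ∈ range d, bS k S n * y ^ n) * (1 - (Fintype.card F : k) * y) =
      ∏ P ∈ S, (1 - y ^ P.natDegree) := by
  have h3 := congrArg (eval y) (bS_poly (k := k) S hS hd)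
  rw [eval_mul, eval_prod, eval_finsetSum] at h3
  simpa using h3

end place

open Classical in
/-- the prime divisors -/
noncomputable def prs (Q : F[X]) : Finset F[X] :=
  ((range (Q.natDegree + 1)).biUnion (fun n => Mon F n)).filter (fun P => Irreducible P ∧ P ∣ Q)

theorem mem_prs {Q P : F[X]} (hQ : Q.Monic) : P ∈ prs Q ↔ P.Monic ∧ Irreducible P ∧ P ∣ Q := by
  classical
  unfold prs
  rw [mem_filter, mem_biUnion]
  constructor
  · rintro ⟨⟨n, _, h1⟩, h2, h3⟩
    exact ⟨(mem_Mon.1 h1).1, h2, h3⟩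
  · rintro ⟨h1, h2, h3⟩
    refine ⟨⟨P.natDegree, ?_, mem_Mon.2 ⟨h1, rfl⟩⟩, h2, h3⟩
    rw [mem_range]
    have := natDegree_le_of_dvd h3 hQ.ne_zero
    omega

theorem coprime_prs {Q f : F[X]} (hQ : Q.Monic) : IsCoprime f Q ↔ ∀ P ∈ prs Q, ¬ P ∣ f := by
  constructor
  · intro h P hP h1
    rw [mem_prs hQ] at hP
    have h2 : IsCoprime P P := (h.of_isCoprime_of_dvd_left h1).of_isCoprime_of_dvd_right hP.2.2
    exact hP.2.1.not_isUnit (isCoprime_self.1 h2)
  · intro h
    by_contra h1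
    obtain ⟨P, h2, h3, h4, h5⟩ := exists_prime_of_not_coprime h1 hQ.ne_zero
    exact h P ((mem_prs hQ).2 ⟨h2, h3, h5⟩) h4

/-- the coefficients of the L-function as algebraic integers -/
noncomputable def cI {Q : F[X]} {ψ : F[X] → ℂ} (h : DC Q ψ) (n : ℕ) : AI := ∑ f ∈ Mon F n, vI h f

theorem cI_coe {Q : F[X]} {ψ : F[X] → ℂ} (h : DC Q ψ) (n : ℕ) : (cI h n : ℂ) = cf ψ n := by
  unfold cI cf
  push_cast
  rfl

theorem cI_red {l j : ℕ} (hl : l.Prime) {k : Type} [Field k] (hk : (l : k) = 0) (π : AI →+* k)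
    {Q : F[X]} {ψ : F[X] → ℂ} (h : DC Q ψ) (hj : ∀ f, IsCoprime f Q → ψ f ^ l ^ j = 1) (n : ℕ) :
    π (cI h n) = bS k (prs Q) n := by
  classical
  unfold cI bS
  rw [map_sum]
  apply sum_congr rfl
  intro f _
  by_cases hc : IsCoprime f Q
  · rw [if_pos ((coprime_prs h.monic).1 hc)]
    exact red_one hl hk π (j := j) (Subtype.ext (hj f hc))
  · rw [if_neg (fun h1 => hc ((coprime_prs h.monic).2 h1)), vI_zero h hc, map_zero]

theorem bS_large {l j d : ℕ} (hl : l.Prime) {k : Type} [Field k] (hk : (l : k) = 0) (π : AI →+* k)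
    {Q : F[X]} (hd : Q.natDegree = d) {ψ : F[X] → ℂ} (h : DC Q ψ)
    (hj : ∀ f, IsCoprime f Q → ψ f ^ l ^ j = 1) (hn : NT Q ψ) (n : ℕ) (hn' : d ≤ n) :
    bS k (prs Q) n = 0 := by
  rw [← cI_red hl hk π h hj n]
  have h1 : cI h n = 0 := by
    apply Subtype.ext
    rw [cI_coe, cf_large h hd hn hn']
    rfl
  rw [h1, map_zero]

/-- the reversed polynomial of the L-function at the inverse of a zero -/
theorem root_rev {d : ℕ} {Q : F[X]} {ψ : F[X] → ℂ} (h : DC Q ψ) {α : AI} {u : ℂ}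
    (hu : (α : ℂ) * u = 1) (h0 : ∑ n ∈ range d, cf ψ n * u ^ n = 0) :
    ∑ n ∈ range d, cI h n * α ^ (d - 1 - n) = 0 := by
  apply Subtype.ext
  push_cast
  rw [← mul_zero ((α : ℂ) ^ (d - 1)), ← h0, mul_sum]
  apply sum_congr rfl
  intro n hn'
  rw [mem_range] at hn'
  rw [cI_coe]
  have h2 : (α : ℂ) ^ (d - 1) = (α : ℂ) ^ (d - 1 - n) * (α : ℂ) ^ n := by
    rw [← pow_add]
    congr 1
    omega
  have h3 : (α : ℂ) ^ n * u ^ n = 1 := by rw [← mul_pow, hu, one_pow]
  rw [h2]
  linear_combination (-(cf ψ n) * (α : ℂ) ^ (d - 1 - n)) * h3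

/-- **the reduction** -/
theorem red_eval {l j d : ℕ} (hl : l.Prime) {k : Type} [Field k] (hk : (l : k) = 0) (π : AI →+* k)
    {Q : F[X]} (hd : Q.natDegree = d) {ψ : F[X] → ℂ} (h : DC Q ψ)
    (hj : ∀ f, IsCoprime f Q → ψ f ^ l ^ j = 1) (hn : NT Q ψ) (y : k) :
    (∑ n ∈ range d, π (cI h n) * y ^ n) * (1 - (Fintype.card F : k) * y) =
      ∏ P ∈ prs Q, (1 - y ^ P.natDegree) := by
  rw [← bS_eval (k := k) (prs Q) (fun R hR => ⟨((mem_prs h.monic).1 hR).1, ((mem_prs h.monic).1 hR).2.1⟩)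
    (d := d) (bS_large hl hk π hd h hj hn) y]
  rw [sum_congr rfl (fun n _ => by rw [cI_red hl hk π h hj n])]

/-- some prime factor has norm `1` modulo the place -/
theorem red_q {l j : ℕ} (hl : l.Prime) {k : Type} [Field k] (hk : (l : k) = 0) (π : AI →+* k)
    {Q : F[X]} {ψ : F[X] → ℂ} (h : DC Q ψ)
    (hj : ∀ f, IsCoprime f Q → ψ f ^ l ^ j = 1) (hn : NT Q ψ) (hq : (Fintype.card F : k) ≠ 0) :
    ∃ P ∈ prs Q, (Fintype.card F : k) ^ P.natDegree = 1 := by
  have h1 := red_eval hl hk π rfl h hj hn ((Fintype.card F : k)⁻¹)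
  rw [mul_inv_cancel₀ hq, sub_self, mul_zero] at h1
  obtain ⟨P, hP, h2⟩ := prod_eq_zero_iff.1 h1.symm
  refine ⟨P, hP, ?_⟩
  have h3 := (sub_eq_zero.1 h2).symm
  rwa [inv_pow, inv_eq_one] at h3

/-- the zeros modulo the place -/
theorem red_zero {l j d : ℕ} (hl : l.Prime) {k : Type} [Field k] (hk : (l : k) = 0) (π : AI →+* k)
    {Q : F[X]} (hd : Q.natDegree = d) {ψ : F[X] → ℂ} (h : DC Q ψ)
    (hj : ∀ f, IsCoprime f Q → ψ f ^ l ^ j = 1) (hn : NT Q ψ) {α : AI} {u : ℂ} (hu : (α : ℂ) * u = 1)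
    (h0 : ∑ n ∈ range d, cf ψ n * u ^ n = 0) (hα : π α ≠ 0) :
    ∃ P ∈ prs Q, π α ^ P.natDegree = 1 := by
  have h1 := root_rev h hu h0
  have h2 : ∑ n ∈ range d, π (cI h n) * ((π α)⁻¹) ^ n = 0 := by
    have h3 := congrArg π h1
    rw [map_sum, map_zero] at h3
    have h4 : ∑ n ∈ range d, π (cI h n) * ((π α)⁻¹) ^ n =
        ((π α)⁻¹) ^ (d - 1) * ∑ n ∈ range d, π (cI h n * α ^ (d - 1 - n)) := by
      rw [mul_sum]
      apply sum_congr rfl
      intro n hn'
      rw [mem_range] at hn'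
      rw [map_mul, map_pow]
      have h5 : ((π α)⁻¹) ^ (d - 1) = ((π α)⁻¹) ^ n * ((π α)⁻¹) ^ (d - 1 - n) := by
        rw [← pow_add]
        congr 1
        omega
      have h6 : ((π α)⁻¹) ^ (d - 1 - n) * (π α) ^ (d - 1 - n) = 1 := by
        rw [← mul_pow, inv_mul_cancel₀ hα, one_pow]
      rw [h5]
      linear_combination (-(π (cI h n)) * ((π α)⁻¹) ^ n) * h6
    rw [h4, h3, mul_zero]
  have h3 := red_eval hl hk π hd h hj hn ((π α)⁻¹)
  rw [h2, zero_mul] at h3
  obtain ⟨P, hP, h4⟩ := prod_eq_zero_iff.1 h3.symm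
  refine ⟨P, hP, ?_⟩
  have h5 := (sub_eq_zero.1 h4).symm
  rwa [inv_pow, inv_eq_one] at h5

end Pool.Agent.H23.EL
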