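import Mathlib

/-!
# Reduction of algebraic integers modulo a place above a prime number
-/

set_option autoImplicit false

open Finset Polynomial

namespace Pool.Agent.H23.EL

/-- the ring of all algebraic integers -/
abbrev AI : Subalgebra ℤ ℂ := integralClosure ℤ ℂ

/-- there is a place above every prime number -/
theorem exists_place {l : ℕ} (hl : l.Prime) :
    ∃ (k : Type) (_ : Field k) (_ : AI →+* k), (l : k) = 0 := by
  have hne : Ideal.span {(l : AI)} ≠ ⊤ := by
    intro h
    rw [Ideal.span_singleton_eq_top] at h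
    obtain ⟨x, hx⟩ := isUnit_iff_exists_inv.1 h
    have h1 : (l : ℂ) * (x : ℂ) = 1 := by
      have := congrArg (fun y : AI => (y : ℂ)) hx
      simpa using this
    have hl0 : (l : ℚ) ≠ 0 := Nat.cast_ne_zero.2 hl.ne_zero
    have h2 : (x : ℂ) = algebraMap ℚ ℂ ((l : ℚ)⁻¹) := by
      rw [map_inv₀, map_natCast]
      exact eq_inv_of_mul_eq_one_right h1
    have h3 : IsIntegral ℤ ((l : ℚ)⁻¹) := by
      have h4 : IsIntegral ℤ (x : ℂ) := x.2
      rw [h2] at h4
      exact (isIntegral_algebraMap_iff (algebraMap ℚ ℂ).injective).1 h4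
    obtain ⟨n, hn⟩ := IsIntegrallyClosed.isIntegral_iff.1 h3
    have h5 : (l : ℚ) * (n : ℚ) = 1 := by
      have : (n : ℚ) = (l : ℚ)⁻¹ := by simpa using hn
      rw [this, mul_inv_cancel₀ hl0]
    have h6 : (l : ℤ) * n = 1 := by exact_mod_cast h5
    have h7 := Int.isUnit_iff.1 (IsUnit.of_mul_eq_one _ h6)
    have := hl.two_le
    omega
  obtain ⟨m, hm, hle⟩ := Ideal.exists_le_maximal _ hne
  refine ⟨AI ⧸ m, Ideal.Quotient.field m, Ideal.Quotient.mk m, ?_⟩
  have : (l : AI) ∈ m := hle (Ideal.subset_span rfl)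
  have h2 := Ideal.Quotient.eq_zero_iff_mem.2 this
  rwa [map_natCast] at h2

/-- roots of unity of `l`-power order reduce to `1` -/
theorem red_one {l : ℕ} (hl : l.Prime) {k : Type} [Field k] (hk : (l : k) = 0) (π : AI →+* k)
    {x : AI} {j : ℕ} (hx : x ^ l ^ j = 1) : π x = 1 := by
  have : CharP k l := (CharP.charP_iff_prime_eq_zero hl).2 hk
  have := Fact.mk hl
  have h : (π x - 1) ^ l ^ j = 0 := by
    rw [sub_pow_char_pow, one_pow, ← map_pow, hx, map_one, sub_self]
  exact sub_eq_zero.1 (eq_zero_of_pow_eq_zero h)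

/-- the reversed polynomial with the coefficients `A 0 = 1, A 1, …, A K` -/
noncomputable def rv {R : Type} [CommRing R] (K : ℕ) (A : ℕ → R) : R[X] :=
  ∑ n ∈ range (K + 1), C (A n) * X ^ (K - n)

theorem rv_monic {R : Type} [CommRing R] {K : ℕ} {A : ℕ → R} (hA : A 0 = 1) : (rv K A).Monic := by
  nontriviality R
  unfold rv
  rw [sum_range_succ', hA, map_one, one_mul, Nat.sub_zero, add_comm]
  apply monic_X_pow_add
  refine (degree_sum_le _ _).trans_lt ?_
  rw [Finset.sup_lt_iff (by simp)]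
  intro n hn
  rw [mem_range] at hn
  refine (degree_C_mul_X_pow_le _ _).trans_lt ?_
  exact_mod_cast (by omega : K - (n + 1) < K)

theorem rv_map {R S : Type} [CommRing R] [CommRing S] (φ : R →+* S) (K : ℕ) (A : ℕ → R) :
    (rv K A).map φ = rv K (fun n => φ (A n)) := by
  unfold rv
  rw [Polynomial.map_sum]
  simp

theorem rv_eval {R : Type} [CommRing R] (K : ℕ) (A : ℕ → R) (x : R) :
    (rv K A).eval x = ∑ n ∈ range (K + 1), A n * x ^ (K - n) := by
  unfold rv
  rw [eval_finsetSum]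
  simp

/-- the roots of a monic polynomial over the algebraic integers -/
theorem exists_roots {p : AI[X]} (hp : p.Monic) : ∃ t : Multiset AI, p = (t.map (fun a => X - C a)).prod := by
  set P : ℂ[X] := p.map (algebraMap AI ℂ) with hP
  have hPm : P.Monic := hp.map _
  have hs := (IsAlgClosed.splits P).eq_prod_roots_of_monic hPm
  have hint : ∀ z ∈ P.roots, z ∈ AI := by
    intro z hz
    rw [mem_roots hPm.ne_zero, IsRoot.def] at hz
    have h1 : IsIntegral AI z := ⟨p, hp, by rwa [hP, eval_map] at hz⟩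
    exact isIntegral_trans z h1
  obtain ⟨t, ht⟩ : ∃ t : Multiset AI, t.map (fun a : AI => (a : ℂ)) = P.roots := by
    refine ⟨P.roots.attach.map (fun z => (⟨z.1, hint z.1 z.2⟩ : AI)), ?_⟩
    rw [Multiset.map_map]
    exact Multiset.attach_map_val _
  refine ⟨t, ?_⟩
  apply Polynomial.map_injective (algebraMap AI ℂ) (FaithfulSMul.algebraMap_injective AI ℂ)
  rw [← hP, hs, ← ht, Polynomial.map_multiset_prod, Multiset.map_map, Multiset.map_map]
  simp

/-- the roots modulo a place lift -/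
theorem lift_root {p : AI[X]} (hp : p.Monic) {k : Type} [Field k] (π : AI →+* k) {x : k}
    (hx : (p.map π).eval x = 0) : ∃ a : AI, π a = x ∧ p.eval a = 0 := by
  obtain ⟨t, ht⟩ := exists_roots hp
  rw [ht, Polynomial.map_multiset_prod, Multiset.map_map, eval_multiset_prod,
    Multiset.prod_eq_zero_iff, Multiset.mem_map] at hx
  obtain ⟨q, hq, hq0⟩ := hx
  rw [Multiset.mem_map] at hq
  obtain ⟨a, ha, rfl⟩ := hq
  refine ⟨a, ?_, ?_⟩
  · simp at hq0
    exact (sub_eq_zero.1 hq0).symm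
  · rw [ht, eval_multiset_prod, Multiset.prod_eq_zero_iff, Multiset.mem_map]
    exact ⟨X - C a, Multiset.mem_map.2 ⟨a, ha, rfl⟩, by simp⟩

/-- the roots of the polynomial `∑ A n X ^ n` over `ℂ` from the roots of its reduction -/
theorem distinct {K : ℕ} {A : ℕ → AI} (hA : A 0 = 1) {k : Type} [Field k] (π : AI →+* k)
    (S : Finset k) (hS0 : (0 : k) ∉ S)
    (hS : ∀ x ∈ S, ∑ n ∈ range (K + 1), π (A n) * x ^ (K - n) = 0) (L : ℂ[X])
    (hL : L = ∑ n ∈ range (K + 1), C (A n : ℂ) * X ^ n) : S.card ≤ L.roots.toFinset.card := by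
  classical
  have hL0 : L ≠ 0 := by
    intro h
    have h1 : L.coeff 0 = 1 := by
      rw [hL, finsetSum_coeff, sum_eq_single 0]
      · simp [hA]
      · intro n _ hn
        rw [coeff_C_mul_X_pow, if_neg (Ne.symm hn)]
      · intro h'
        exact absurd (mem_range.2 (Nat.succ_pos K)) h'
    rw [h, coeff_zero] at h1
    exact zero_ne_one h1
  have key : ∀ x ∈ S, ∃ a : AI, π a = x ∧ (a : ℂ) ≠ 0 ∧ ((a : ℂ)⁻¹) ∈ L.roots.toFinset := by
    intro x hx
    obtain ⟨a, ha, ha0⟩ := lift_root (rv_monic (K := K) hA) π (x := x) (by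
      rw [rv_map, rv_eval]
      exact hS x hx)
    have hne : (a : ℂ) ≠ 0 := by
      intro h
      have h1 : a = 0 := by exact_mod_cast h
      rw [h1, map_zero] at ha
      exact hS0 (ha ▸ hx)
    refine ⟨a, ha, hne, ?_⟩
    rw [Multiset.mem_toFinset, mem_roots hL0, IsRoot.def, hL, eval_finsetSum]
    rw [rv_eval] at ha0
    have h2 : ∑ n ∈ range (K + 1), (A n : ℂ) * (a : ℂ) ^ (K - n) = 0 := by
      have := congrArg (fun y : AI => (y : ℂ)) ha0
      push_cast at this
      exact this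
    have h3 : ∑ n ∈ range (K + 1), eval ((a : ℂ)⁻¹) (C (A n : ℂ) * X ^ n) =
        ((a : ℂ)⁻¹) ^ K * ∑ n ∈ range (K + 1), (A n : ℂ) * (a : ℂ) ^ (K - n) := by
      rw [mul_sum]
      apply sum_congr rfl
      intro n hn
      rw [mem_range] at hn
      rw [eval_mul, eval_C, eval_pow, eval_X]
      have h4 : ((a : ℂ)⁻¹) ^ K = ((a : ℂ)⁻¹) ^ n * ((a : ℂ)⁻¹) ^ (K - n) := by
        rw [← pow_add]
        congr 1
        omega
      rw [h4]
      have h5 : ((a : ℂ)⁻¹) ^ (K - n) * (a : ℂ) ^ (K - n) = 1 := by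
        rw [← mul_pow, inv_mul_cancel₀ hne, one_pow]
      linear_combination (-(A n : ℂ) * ((a : ℂ)⁻¹) ^ n) * h5
    rw [h3, h2, mul_zero]
  choose! r hr using key
  apply Finset.card_le_card_of_injOn (fun x => ((r x : ℂ))⁻¹)
  · intro x hx
    exact (hr x hx).2.2
  · intro x hx y hy hxy
    have h1 : (r x : ℂ) = (r y : ℂ) := inv_injective hxy
    have h2 : r x = r y := by exact_mod_cast h1
    rw [← (hr x hx).1, ← (hr y hy).1, h2]

end Pool.Agent.H23.EL
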