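import Pool.Agent.H23.EL.Ang

/-!
# Characters of order a power of two modulo a prime of odd degree
-/

set_option autoImplicit false

open Finset Polynomial
open Pool.Agent.H341R2.Sharp (Mon mem_Mon)
open Pool.Agent.H23.FF Pool.Agent.H23.PC

namespace Pool.Agent.H23.EL

variable {F : Type} [Field F] [Fintype F]

theorem bS_irr {k : Type} [Field k] {P : F[X]} (hP : P.Monic) (hP' : Irreducible P) {n : ℕ}
    (hn : n < P.natDegree) : bS k (prs P) n = (Fintype.card F : k) ^ n := by
  classical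
  unfold bS
  have h1 : ∀ f ∈ Mon F n, (if ∀ R ∈ prs P, ¬ R ∣ f then (1 : k) else 0) = 1 := by
    intro f hf
    rw [if_pos]
    intro R hR h2
    rw [mem_prs hP] at hR
    have h3 : R = P := eq_of_monic_of_associated hR.1 hP (hR.2.1.associated_of_dvd hP' hR.2.2)
    rw [mem_Mon] at hf
    have h4 := natDegree_le_of_dvd h2 hf.1.ne_zero
    rw [h3] at h4
    omega
  rw [sum_congr rfl h1, sum_const, card_Mon, nsmul_one]
  push_cast
  rfl

/-- modulo a place above `2`, odd numbers are `1` -/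
theorem odd_cast {k : Type} [Field k] (hk : ((2 : ℕ) : k) = 0) {q : ℕ} (hq : ¬ 2 ∣ q) : (q : k) = 1 := by
  obtain ⟨c, hc⟩ : ∃ c, q = 2 * c + 1 := ⟨q / 2, by omega⟩
  rw [hc, Nat.cast_add, Nat.cast_mul, hk, zero_mul, zero_add, Nat.cast_one]

/-- no zeros at the angles which are roots of unity of `2`-power order -/
theorem two_pow_angle {j M i : ℕ} {P : F[X]} (hP' : Irreducible P) (hM : P.natDegree = M)
    (hModd : ¬ 2 ∣ M) {ψ : F[X] → ℂ} (h : DC P ψ) (hj : ∀ f, IsCoprime f P → ψ f ^ 2 ^ j = 1)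
    (hq : ¬ 2 ∣ Fintype.card F) {s w : AI} (hs : s ^ 2 = (Fintype.card F : AI))
    (hw : w ^ 2 ^ i = 1) {u : ℂ} (hu : ((s * w : AI) : ℂ) * u = 1) :
    ∑ n ∈ range M, cf ψ n * u ^ n ≠ 0 := by
  intro h0
  obtain ⟨k, _, π, hk⟩ := exists_place Nat.prime_two
  have hq1 := odd_cast hk hq
  have : CharP k 2 := (CharP.charP_iff_prime_eq_zero Nat.prime_two).2 hk
  have h1 := congrArg π (root_rev h hu h0)
  have hα : π (s * w) = 1 := by
    rw [map_mul, red_one Nat.prime_two hk π hw, mul_one]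
    have h2 : (π s) ^ 2 = 1 := by rw [← map_pow, hs, map_natCast, hq1]
    have h3 : (π s - 1) ^ 2 = 0 := by
      have := Fact.mk Nat.prime_two
      rw [sub_pow_char, h2, one_pow, sub_self]
    exact sub_eq_zero.1 (pow_eq_zero_iff (by norm_num) |>.1 h3)
  rw [map_sum, map_zero] at h1
  have h4 : ∀ n ∈ range M, π (cI h n * (s * w) ^ (M - 1 - n)) = 1 := by
    intro n hn
    rw [mem_range] at hn
    rw [map_mul, map_pow, hα, one_pow, mul_one, cI_red Nat.prime_two hk π h hj n,
      bS_irr h.monic hP' (by omega), hq1, one_pow]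
  rw [sum_congr rfl h4, sum_const, card_range, nsmul_one] at h1
  exact cast_ne Nat.prime_two hk hModd h1

/-- no zeros at the angles of order prime to the characteristic -/
theorem two_angle {j M m p a : ℕ} {P : F[X]} (hP' : Irreducible P) (hM : P.natDegree = M)
    (hModd : ¬ 2 ∣ M) {ψ : F[X] → ℂ} (h : DC P ψ) (hj : ∀ f, IsCoprime f P → ψ f ^ 2 ^ j = 1)
    (hp : p.Prime) (hp2 : p ≠ 2) (hq : Fintype.card F = p ^ a) (ha : Odd a) (hm : 0 < m)
    (hpm : ¬ p ∣ m) {s w : AI} (hs : s ^ 2 = (Fintype.card F : AI))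
    (hw : w ^ m = 1) {u : ℂ} (hu : ((s * w : AI) : ℂ) * u = 1) :
    ∑ n ∈ range M, cf ψ n * u ^ n ≠ 0 := by
  classical
  intro h0
  have hM1 : 1 ≤ M := by
    rw [← hM]
    exact hP'.natDegree_pos
  have hq2 : ¬ 2 ∣ Fintype.card F := by
    rw [hq]
    intro h1
    have h2 := Nat.prime_two.dvd_of_dvd_pow h1
    exact hp2 ((Nat.prime_dvd_prime_iff_eq Nat.prime_two hp).1 h2).symm
  set N := 2 ^ j * m with hN
  have hN0 : 0 < N := by positivity
  have hpN : ¬ p ∣ N := by
    intro h1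
    rcases hp.dvd_mul.1 h1 with h2 | h2
    · exact hp2 ((Nat.prime_dvd_prime_iff_eq hp Nat.prime_two).1 (hp.dvd_of_dvd_pow h2))
    · exact hpm h2
  obtain ⟨τ, hτ1, hτ2⟩ := exists_gal hp hp2 hN0 hpN
  have hτw : τ w = w := hτ1 w (by rw [hN, mul_comm, pow_mul, hw, one_pow])
  have hτs : τ s = -s := by
    obtain ⟨sp, _, hsp⟩ := sqrt_int p
    have h1 := hτ2 sp hsp
    obtain ⟨b, rfl⟩ := ha
    have h2 : s ^ 2 = ((p : AI) ^ b * sp) ^ 2 := by
      rw [hs, hq, mul_pow, hsp]
      push_cast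
      ring
    rcases sq_eq_sq_iff_eq_or_eq_neg.1 h2 with h3 | h3
    · rw [h3, map_mul, map_pow, map_natCast, h1]
      ring
    · rw [h3, map_neg, map_mul, map_pow, map_natCast, h1]
      ring
  have hτc : ∀ n, τ (cI h n) = cI h n := by
    intro n
    unfold cI
    rw [map_sum]
    apply sum_congr rfl
    intro f _
    by_cases hc : IsCoprime f P
    · apply hτ1
      have h1 : vI h f ^ 2 ^ j = 1 := Subtype.ext (hj f hc)
      rw [hN, pow_mul, h1, one_pow]
    · rw [vI_zero h hc, map_zero]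
  set α : AI := s * w with hα
  have hr1 := root_rev h hu h0
  have hr2 : ∑ n ∈ range M, cI h n * (-α) ^ (M - 1 - n) = 0 := by
    have h1 := congrArg τ hr1
    rw [map_sum, map_zero] at h1
    rw [← h1]
    apply sum_congr rfl
    intro n _
    rw [map_mul, hτc, map_pow, map_mul, hτs, hτw, neg_mul]
  have hc0 : cI h 0 = 1 := by
    apply Subtype.ext
    rw [cI_coe, cf_zero h]
    rfl
  have eM : M = (M - 1) + 1 := by omega
  set R : AI[X] := rv (M - 1) (cI h) with hR
  have hRm : R.Monic := rv_monic hc0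
  have hR1 : R.eval α = 0 := by
    rw [hR, rv_eval, ← eM]
    exact hr1
  have hR2 : R.eval (-α) = 0 := by
    rw [hR, rv_eval, ← eM]
    exact hr2
  obtain ⟨t, ht⟩ := exists_roots hRm
  have hmem : ∀ x : AI, R.eval x = 0 → x ∈ t := by
    intro x hx
    rw [ht, eval_multiset_prod, Multiset.prod_eq_zero_iff, Multiset.map_map, Multiset.mem_map] at hx
    obtain ⟨y, hy, hxy⟩ := hx
    rw [Function.comp_apply, eval_sub, eval_X, eval_C, sub_eq_zero] at hxy
    rw [hxy]
    exact hy
  have hα0 : α ≠ 0 := by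
    intro h1
    rw [h1] at hu
    simp at hu
  have hne : α ≠ -α := by
    intro h1
    have h2 : (2 : AI) * α = 0 := by linear_combination h1
    rcases mul_eq_zero.1 h2 with h3 | h3
    · exact two_ne_zero h3
    · exact hα0 h3
  have hle : ({α, -α} : Multiset AI) ≤ t := by
    rw [Multiset.le_iff_subset]
    · intro x hx
      simp only [Multiset.insert_eq_cons, Multiset.mem_cons, Multiset.mem_singleton] at hx
      rcases hx with rfl | rfl
      · exact hmem _ hR1
      · exact hmem _ hR2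
    · simp [hne]
  have hdvd : (X - C α) * (X - C (-α)) ∣ R := by
    have h1 := Multiset.prod_dvd_prod_of_le (Multiset.map_le_map (f := fun a : AI => X - C a) hle)
    rw [← ht] at h1
    simpa using h1
  -- the reduction
  obtain ⟨k, _, π, hk⟩ := exists_place Nat.prime_two
  have hchar : CharP k 2 := (CharP.charP_iff_prime_eq_zero Nat.prime_two).2 hk
  have hq1 := odd_cast hk hq2
  have hRπ : R.map π * (X - 1) = X ^ M - C 1 := by
    rw [hR, rv_map]
    unfold rv
    rw [← eM, map_one]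
    have h1 : ∀ n ∈ range M, C (π (cI h n)) * (X : k[X]) ^ (M - 1 - n) = X ^ (M - 1 - n) := by
      intro n hn
      rw [mem_range] at hn
      rw [cI_red Nat.prime_two hk π h hj n, bS_irr h.monic hP' (by omega), hq1, one_pow, map_one, one_mul]
    rw [sum_congr rfl h1, sum_range_reflect (fun i => (X : k[X]) ^ i) M, geom_sum_mul]
  have hdvd2 : (X - C (π α)) * (X - C (π α)) ∣ (X ^ M - C 1 : k[X]) := by
    rw [← hRπ]
    apply Dvd.dvd.mul_right
    have h1 := Polynomial.map_dvd π hdvd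
    rw [Polynomial.map_mul, Polynomial.map_sub, Polynomial.map_sub, map_X, map_C, map_C, map_neg] at h1
    have h2 : -π α = π α := CharTwo.neg_eq _
    rwa [h2] at h1
  have hsep : (X ^ M - C 1 : k[X]).Separable :=
    separable_X_pow_sub_C (1 : k) (cast_ne Nat.prime_two hk hModd) one_ne_zero
  exact not_isUnit_X_sub_C _ (hsep.squarefree _ hdvd2)

theorem prs_irr {P : F[X]} (hP : P.Monic) (hP' : Irreducible P) : prs P = {P} := by
  ext R
  rw [mem_prs hP, mem_singleton]
  constructor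
  · rintro ⟨h1, h2, h3⟩
    exact eq_of_monic_of_associated h1 hP (h2.associated_of_dvd hP' h3)
  · rintro rfl
    exact ⟨hP, hP', dvd_rfl⟩

/-- a zero at a rational angle forces the characteristic to divide the order of the angle and the degree -/
theorem two_dvd {j M m p a : ℕ} {P : F[X]} (hP' : Irreducible P) (hM : P.natDegree = M)
    (hModd : ¬ 2 ∣ M) {ψ : F[X] → ℂ} (h : DC P ψ) (hj : ∀ f, IsCoprime f P → ψ f ^ 2 ^ j = 1)
    (hn : NT P ψ) (hp : p.Prime) (hp2 : p ≠ 2) (hq : Fintype.card F = p ^ a) (ha : Odd a) (hm : 0 < m)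
    {s w : AI} (hs : s ^ 2 = (Fintype.card F : AI))
    (hw : w ^ m = 1) {u : ℂ} (hu : ((s * w : AI) : ℂ) * u = 1)
    (h0 : ∑ n ∈ range M, cf ψ n * u ^ n = 0) : p ∣ m ∧ p ∣ M := by
  constructor
  · by_contra h1
    exact two_angle hP' hM hModd h hj hp hp2 hq ha hm h1 hs hw hu h0
  · by_contra h1
    have hq2 : ¬ 2 ∣ Fintype.card F := by
      rw [hq]
      intro h1
      have h2 := Nat.prime_two.dvd_of_dvd_pow h1
      exact hp2 ((Nat.prime_dvd_prime_iff_eq Nat.prime_two hp).1 h2).symm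
    obtain ⟨b, hb⟩ := order Nat.prime_two hM h hj hn hq2 hs hm hw hu h0
    rw [prs_irr h.monic hP', prod_singleton, hM] at hb
    have hM0 : 0 < M := by
      rw [← hM]
      exact hP'.natDegree_pos
    refine two_angle hP' hM hModd h hj hp hp2 hq ha (m := 2 * M * 2 ^ b) (by positivity) ?_ hs hb hu h0
    intro h2
    rcases hp.dvd_mul.1 h2 with h3 | h3
    · rcases hp.dvd_mul.1 h3 with h4 | h4
      · exact hp2 ((Nat.prime_dvd_prime_iff_eq hp Nat.prime_two).1 h4)
      · exact h1 h4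
    · exact hp2 ((Nat.prime_dvd_prime_iff_eq hp Nat.prime_two).1 (hp.dvd_of_dvd_pow h3))

/-- the inverse of a root of unity as an algebraic integer -/
theorem exists_w {v : ℂ} {m : ℕ} (hm : 0 < m) (hv : v ^ m = 1) : ∃ w : AI, (w : ℂ) = v⁻¹ ∧ w ^ m = 1 := by
  have h1 : (v⁻¹) ^ m = 1 := by rw [inv_pow, hv, inv_one]
  have h2 : IsIntegral ℤ v⁻¹ := by
    apply IsIntegral.of_pow hm
    rw [h1]
    exact isIntegral_one
  exact ⟨⟨_, h2⟩, rfl, Subtype.ext h1⟩

end Pool.Agent.H23.EL
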