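import Pool.Agent.H23.EL.Ang

/-!
# Leading terms at a place
-/

set_option autoImplicit false

open Finset Polynomial

namespace Pool.Agent.H23.EL

section val

variable {k : Type} [Field k] (π : AI →+* k) (t : AI)

/-- `x = t ^ n y`, where `y` is integral at the place and has residue `c` -/
def V (n : ℕ) (c : k) (x : ℂ) : Prop :=
  ∃ a b : AI, π a = c ∧ π b = 1 ∧ x * (b : ℂ) = (t : ℂ) ^ n * (a : ℂ)

variable {π t}

theorem V.add {n : ℕ} {c c' : k} {x x' : ℂ} (h : V π t n c x) (h' : V π t n c' x') :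
    V π t n (c + c') (x + x') := by
  obtain ⟨a, b, ha, hb, e⟩ := h
  obtain ⟨a', b', ha', hb', e'⟩ := h'
  refine ⟨a * b' + a' * b, b * b', ?_, ?_, ?_⟩
  · rw [map_add, map_mul, map_mul, ha, hb, ha', hb', mul_one, mul_one]
  · rw [map_mul, hb, hb', mul_one]
  · push_cast
    linear_combination (b' : ℂ) * e + (b : ℂ) * e'

theorem V.mul {n n' : ℕ} {c c' : k} {x x' : ℂ} (h : V π t n c x) (h' : V π t n' c' x') :
    V π t (n + n') (c * c') (x * x') := by
  obtain ⟨a, b, ha, hb, e⟩ := h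
  obtain ⟨a', b', ha', hb', e'⟩ := h'
  refine ⟨a * a', b * b', ?_, ?_, ?_⟩
  · rw [map_mul, ha, ha']
  · rw [map_mul, hb, hb', mul_one]
  · push_cast
    rw [pow_add]
    linear_combination (x' * b') * e + ((t : ℂ) ^ n * a) * e'

theorem V.coe (z : AI) : V π t 0 (π z) (z : ℂ) :=
  ⟨z, 1, rfl, map_one π, by push_cast; ring⟩

theorem V.int (z : ℤ) : V π t 0 (z : k) (z : ℂ) := by
  have h := V.coe (π := π) (t := t) (z : AI)
  rw [map_intCast] at h
  have e : (((z : ℤ) : AI) : ℂ) = (z : ℂ) := by push_cast; rfl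
  rwa [e] at h

theorem V.one : V π t 0 (1 : k) (1 : ℂ) := by
  have h := V.int (π := π) (t := t) 1
  simpa using h

theorem V.neg {n : ℕ} {c : k} {x : ℂ} (h : V π t n c x) : V π t n (-c) (-x) := by
  obtain ⟨a, b, ha, hb, e⟩ := h
  refine ⟨-a, b, ?_, hb, ?_⟩
  · rw [map_neg, ha]
  · push_cast
    linear_combination -e

theorem V.up {n m : ℕ} {c : k} {x : ℂ} (ht : π t = 0) (h : V π t n c x) (hm : m < n) :
    V π t m 0 x := by
  obtain ⟨a, b, ha, hb, e⟩ := h
  refine ⟨t ^ (n - m) * a, b, ?_, hb, ?_⟩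
  · rw [map_mul, map_pow, ht, zero_pow (by omega), zero_mul]
  · rw [e]
    push_cast
    rw [← mul_assoc, ← pow_add]
    congr 2
    omega

theorem V.zero (n : ℕ) : V π t n (0 : k) (0 : ℂ) :=
  ⟨0, 1, map_zero π, map_one π, by push_cast; ring⟩

theorem V.sum {ι : Type} (s : Finset ι) {n : ℕ} {c : ι → k} {x : ι → ℂ}
    (h : ∀ i ∈ s, V π t n (c i) (x i)) : V π t n (∑ i ∈ s, c i) (∑ i ∈ s, x i) := by
  classical
  induction s using Finset.induction_on with
  | empty =>
    rw [sum_empty, sum_empty]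
    exact V.zero n
  | insert i s hi ih =>
    rw [sum_insert hi, sum_insert hi]
    exact (h i (mem_insert_self _ _)).add (ih fun j hj => h j (mem_insert_of_mem hj))

theorem V.prod {ι : Type} (s : Finset ι) {x : ι → ℂ} {m : ℕ}
    (h : ∀ i ∈ s, V π t m (1 : k) (x i)) : V π t (m * s.card) (1 : k) (∏ i ∈ s, x i) := by
  classical
  induction s using Finset.induction_on with
  | empty =>
    rw [prod_empty, card_empty, mul_zero]
    exact V.one
  | insert i s hi ih =>
    rw [prod_insert hi, card_insert_of_notMem hi]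
    have h1 := (h i (mem_insert_self _ _)).mul (ih fun j hj => h j (mem_insert_of_mem hj))
    rw [mul_one] at h1
    have e : m * (s.card + 1) = m + m * s.card := by ring
    rw [e]
    exact h1

theorem V.pow {n : ℕ} {x : ℂ} (h : V π t n (1 : k) x) (m : ℕ) : V π t (n * m) (1 : k) (x ^ m) := by
  have h1 := V.prod (range m) (x := fun _ => x) (fun _ _ => h)
  rwa [card_range, prod_const, card_range] at h1

theorem V.cancel {n : ℕ} {c : k} {x y : ℂ} (ht : t ≠ 0) (hy : V π t 1 (1 : k) y)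
    (h : V π t (n + 1) c (y * x)) : V π t n c x := by
  obtain ⟨a', b', ha', hb', e'⟩ := hy
  obtain ⟨a, b, ha, hb, e⟩ := h
  refine ⟨a * b', a' * b, ?_, ?_, ?_⟩
  · rw [map_mul, ha, hb', mul_one]
  · rw [map_mul, ha', hb, mul_one]
  · have ht' : (t : ℂ) ≠ 0 := by
      intro h0
      apply ht
      exact_mod_cast h0
    apply mul_left_cancel₀ ht'
    push_cast
    rw [pow_one] at e'
    rw [pow_succ] at e
    linear_combination (-(x * b)) * e' + (b' : ℂ) * e

theorem V.ne_zero {n : ℕ} {c : k} {x : ℂ} (ht : t ≠ 0) (h : V π t n c x) (hc : c ≠ 0) : x ≠ 0 := by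
  rintro rfl
  obtain ⟨a, b, ha, hb, e⟩ := h
  rw [zero_mul] at e
  have ht' : (t : ℂ) ≠ 0 := by
    intro h0
    apply ht
    exact_mod_cast h0
  rcases mul_eq_zero.1 e.symm with h1 | h1
  · exact ht' (eq_zero_of_pow_eq_zero h1)
  · have h2 : a = 0 := by exact_mod_cast h1
    rw [h2, map_zero] at ha
    exact hc ha.symm

end val

/-- the place above `2` and the element `t = √q - 1` for `q = 3` modulo `4` -/
structure Place (q : ℕ) (k : Type) [Field k] (π : AI →+* k) (s : AI) : Prop where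
  two : ((2 : ℕ) : k) = 0
  sq : s ^ 2 = (q : AI)
  mod : q % 4 = 3

section place

variable {q : ℕ} {k : Type} [Field k] {π : AI →+* k} {s : AI} (h : Place q k π s)

include h

theorem Place.one_s : π s = 1 := by
  have : CharP k 2 := (CharP.charP_iff_prime_eq_zero Nat.prime_two).2 h.two
  have hq : (q : k) = 1 := by
    obtain ⟨c, hc⟩ : ∃ c, q = 2 * c + 1 := ⟨q / 2, by have := h.mod; omega⟩
    rw [hc, Nat.cast_add, Nat.cast_mul, h.two, zero_mul, zero_add, Nat.cast_one]
  have h2 : (π s) ^ 2 = 1 := by rw [← map_pow, h.sq, map_natCast, hq]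
  have h3 : (π s - 1) ^ 2 = 0 := by
    have := Fact.mk Nat.prime_two
    rw [sub_pow_char, h2, one_pow, sub_self]
  exact sub_eq_zero.1 (pow_eq_zero_iff (by norm_num) |>.1 h3)

theorem Place.neg_one : (-1 : k) = 1 := by
  have h1 : (2 : k) = 0 := by exact_mod_cast h.two
  linear_combination -h1

theorem Place.t0 : π (s - 1) = 0 := by rw [map_sub, h.one_s, map_one, sub_self]

theorem Place.ne : s - 1 ≠ 0 := by
  intro h0
  have h1 : s = 1 := sub_eq_zero.1 h0
  have h2 := h.sq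
  rw [h1, one_pow] at h2
  have h3 : (1 : ℕ) = q := by exact_mod_cast h2
  have := h.mod
  omega

theorem Place.V_two : V π (s - 1) 2 (1 : k) (2 : ℂ) := by
  obtain ⟨m, hm⟩ : ∃ m, q = 2 * (2 * m + 1) + 1 := ⟨q / 4, by have := h.mod; omega⟩
  refine ⟨1, (2 * m + 1 : ℕ) - (s - 1), map_one π, ?_, ?_⟩
  · rw [map_sub, h.t0, sub_zero, map_natCast, Nat.cast_add, Nat.cast_mul, h.two, zero_mul, zero_add,
      Nat.cast_one]
  · have h1 := congrArg (fun y : AI => (y : ℂ)) h.sq
    have e2 : ((2 : AI) : ℂ) = 2 := rfl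
    rw [hm] at h1
    push_cast at h1 ⊢
    simp only [e2] at h1 ⊢
    linear_combination (-1 : ℂ) * h1

theorem Place.V_u {u : ℂ} (hu : (s : ℂ) * u = 1) : V π (s - 1) 0 (1 : k) u :=
  ⟨1, s, map_one π, h.one_s, by push_cast; linear_combination hu⟩

theorem Place.V_lin {u : ℂ} (hu : (s : ℂ) * u = 1) : V π (s - 1) 1 (1 : k) (1 - q * u) := by
  refine ⟨-1, 1, ?_, map_one π, ?_⟩
  · rw [map_neg, map_one, h.neg_one]
  · have h1 := congrArg (fun y : AI => (y : ℂ)) h.sq
    push_cast at h1 ⊢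
    linear_combination u * h1 - (s : ℂ) * hu

theorem Place.V_fac {u : ℂ} (hu : (s : ℂ) * u = 1) {M : ℕ} (hM : Odd M) :
    V π (s - 1) 1 (1 : k) (1 - u ^ M) := by
  refine ⟨∑ i ∈ range M, s ^ i, s ^ M, ?_, ?_, ?_⟩
  · rw [map_sum, sum_congr rfl (fun i _ => by rw [map_pow, h.one_s, one_pow]), sum_const,
      card_range, nsmul_one]
    obtain ⟨c, rfl⟩ := hM
    rw [Nat.cast_add, Nat.cast_mul, h.two, zero_mul, zero_add, Nat.cast_one]
  · rw [map_pow, h.one_s, one_pow]
  · have h1 : (∑ i ∈ range M, (s : ℂ) ^ i) * ((s : ℂ) - 1) = (s : ℂ) ^ M - 1 := geom_sum_mul _ _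
    have h2 : (s : ℂ) ^ M * u ^ M = 1 := by rw [← mul_pow, hu, one_pow]
    push_cast
    linear_combination -h1 - h2

theorem Place.V_fac' {u : ℂ} (hu : (s : ℂ) * u = 1) {M : ℕ} (hM : Odd M) {c : ℂ} (hc : c = 1 ∨ c = -1) :
    V π (s - 1) 1 (1 : k) (1 - c * u ^ M) := by
  rcases hc with rfl | rfl
  · rw [one_mul]
    exact h.V_fac hu hM
  · have h1 := h.V_fac hu hM
    have h2 := (h.V_two.mul ((h.V_u hu).pow M)).up (m := 1) h.t0 (by omega)
    have h3 := h1.add h2
    rw [add_zero] at h3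
    have e : 1 - -1 * u ^ M = 1 - u ^ M + 2 * u ^ M := by ring
    rw [e]
    exact h3

end place

end Pool.Agent.H23.EL
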